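import Pool.Agent.Helper20.CY.C2

namespace Helper20.CY

/-- The conclusion of block C. -/
def C_Goal {α X R : Type*} [DecidableEq α] [DecidableEq X] [DecidableEq R]
    (k : ℕ) (Xs : Finset X) (Rs : Finset R) (A : R → Finset α) (c : R → ℤ)
    (w : X → R → ℚ) : Prop :=
  ∃ L : Set (Finset α), Laminar L ∧ (∀ F ∈ L, ∃ Q ⊆ Rs, F = Q.biUnion A) ∧
    ∀ W : Finset α, (∀ ρ ∈ Rs, c ρ - 1 ≤ ((W ∩ A ρ).card : ℤ)) → (∀ F ∈ L, Bal k W F) →
      (∀ ρ ∈ Rs, ((W ∩ A ρ).card : ℤ) ≤ c ρ) ∧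
      ∃ m : X → R, Set.InjOn m ↑Xs ∧
        (∀ x ∈ Xs, m x ∈ Rs ∧ 0 < w x (m x) ∧ ((W ∩ A (m x)).card : ℤ) = c (m x) - 1) ∧
        ∀ ρ ∈ Rs, ((W ∩ A ρ).card : ℤ) = c ρ - 1 → ∃ x ∈ Xs, m x = ρ

theorem C_bal_le {α : Type*} [DecidableEq α] {k : ℕ} (hk : 0 < k) {W F : Finset α} {c : ℤ}
    (h : Bal k W F) (h1 : (F.card : ℚ) ≤ k * c) : ((W ∩ F).card : ℤ) ≤ c := by
  have h2 : (k : ℚ) * (W ∩ F).card < F.card + k := by exact_mod_cast h.2
  have hk' : (0 : ℚ) < k := by exact_mod_cast hk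
  have h3 : (k : ℚ) * (W ∩ F).card < k * (c + 1) := by linarith
  have h4 : ((W ∩ F).card : ℚ) < c + 1 := lt_of_mul_lt_mul_left h3 hk'.le
  have h5 : ((W ∩ F).card : ℤ) < c + 1 := by exact_mod_cast h4
  omega

theorem C_bal_ge {α : Type*} [DecidableEq α] {k : ℕ} (hk : 0 < k) {W F : Finset α} {c : ℤ}
    (h : Bal k W F) (h1 : (k : ℚ) * (c - 1) < F.card) : c - 1 ≤ ((W ∩ F).card : ℤ) := by
  have h2 : (F.card : ℚ) < k * (W ∩ F).card + k := by exact_mod_cast h.1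
  have hk' : (0 : ℚ) < k := by exact_mod_cast hk
  have h3 : (k : ℚ) * (c - 1) < k * ((W ∩ F).card + 1) := by linarith
  have h4 : (c : ℚ) - 1 < (W ∩ F).card + 1 := lt_of_mul_lt_mul_left h3 hk'.le
  have h5 : c - 1 < ((W ∩ F).card : ℤ) + 1 := by exact_mod_cast h4
  omega

theorem C_bal_eq {α : Type*} [DecidableEq α] {k : ℕ} (hk : 0 < k) {W F : Finset α} {c : ℤ}
    (h : Bal k W F) (h1 : (F.card : ℚ) = k * c) : ((W ∩ F).card : ℤ) = c := by
  have hk' : (0 : ℚ) < k := by exact_mod_cast hk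
  have h2 := C_bal_le hk h h1.le
  have h3 : (c + 1) - 1 ≤ ((W ∩ F).card : ℤ) := by
    have h4 : (F.card : ℚ) < k * (W ∩ F).card + k := by exact_mod_cast h.1
    have h5 : (k : ℚ) * c < k * ((W ∩ F).card + 1) := by linarith
    have h6 : (c : ℚ) < (W ∩ F).card + 1 := lt_of_mul_lt_mul_left h5 hk'.le
    have h7 : c < ((W ∩ F).card : ℤ) + 1 := by exact_mod_cast h6
    omega
  omega

section Case1

variable {α X R : Type*} [DecidableEq α] [DecidableEq X] [DecidableEq R]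
  {k : ℕ} {Xs : Finset X} {Rs : Finset R} {A : R → Finset α} {c : R → ℤ}
  {w : X → R → ℚ} {x : X} {ρ0 : R} {N : Finset R}

theorem C_sumN (hw : ∀ x ρ, 0 ≤ w x ρ) (hX : ∑ ρ ∈ Rs, w x ρ = k) (h0 : ρ0 ∈ Rs)
    (hN : ∀ ρ, ρ ∈ N ↔ ρ ∈ Rs ∧ 0 < w x ρ ∧ ρ ≠ ρ0) :
    ∑ ρ ∈ N, w x ρ = k - w x ρ0 := by
  have h1 : ∑ ρ ∈ N, w x ρ = ∑ ρ ∈ Rs.erase ρ0, w x ρ := by
    apply Finset.sum_subset
    · intro ρ hρ
      obtain ⟨h2, -, h3⟩ := (hN ρ).mp hρ
      exact Finset.mem_erase.mpr ⟨h3, h2⟩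
    · intro ρ hρ hρN
      obtain ⟨h3, h2⟩ := Finset.mem_erase.mp hρ
      by_contra hne
      exact hρN ((hN ρ).mpr ⟨h2, lt_of_le_of_ne (hw x ρ) (Ne.symm hne), h3⟩)
  have h2 := Finset.add_sum_erase Rs (fun ρ => w x ρ) h0
  rw [h1]
  linarith

theorem C_cardA (hx : x ∈ Xs)
    (hR : ∀ ρ ∈ Rs, ((A ρ).card : ℚ) + ∑ x ∈ Xs, w x ρ = k * c ρ)
    (hN : ∀ ρ, ρ ∈ N ↔ ρ ∈ Rs ∧ 0 < w x ρ ∧ ρ ≠ ρ0)
    (hterm : ∀ ρ ∈ N, ∀ x' ∈ Xs, x' ≠ x → w x' ρ = 0) :
    ∀ ρ ∈ N, ((A ρ).card : ℚ) = k * c ρ - w x ρ := by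
  intro ρ hρ
  have h1 := hR ρ ((hN ρ).mp hρ).1
  rw [Finset.sum_eq_single x (fun y hy hyx => hterm ρ hρ y hy hyx)
    (fun h => absurd hx h)] at h1
  linarith

theorem C_cardG (hw : ∀ x ρ, 0 ≤ w x ρ) (hx : x ∈ Xs) (hX : ∑ ρ ∈ Rs, w x ρ = k) (h0 : ρ0 ∈ Rs)
    (hR : ∀ ρ ∈ Rs, ((A ρ).card : ℚ) + ∑ x ∈ Xs, w x ρ = k * c ρ)
    (hA : ∀ ρ ∈ Rs, ∀ ρ' ∈ Rs, ρ ≠ ρ' → Disjoint (A ρ) (A ρ'))
    (hN : ∀ ρ, ρ ∈ N ↔ ρ ∈ Rs ∧ 0 < w x ρ ∧ ρ ≠ ρ0)
    (hterm : ∀ ρ ∈ N, ∀ x' ∈ Xs, x' ≠ x → w x' ρ = 0) :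
    ((N.biUnion A).card : ℚ) = k * (((∑ ρ ∈ N, c ρ : ℤ) : ℚ) - 1) + w x ρ0 := by
  rw [Finset.card_biUnion (fun ρ hρ ρ' hρ' hne =>
    hA ρ ((hN ρ).mp hρ).1 ρ' ((hN ρ').mp hρ').1 hne)]
  push_cast
  rw [Finset.sum_congr rfl (C_cardA hx hR hN hterm), Finset.sum_sub_distrib, C_sumN hw hX h0 hN,
    ← Finset.mul_sum]
  ring

/-- The contracted instance gives the instance. -/
theorem C_case1 (hk : 0 < k) (hw : ∀ x ρ, 0 ≤ w x ρ) (hx : x ∈ Xs)
    (hX : ∑ ρ ∈ Rs, w x ρ = k) (h0 : ρ0 ∈ Rs) (h0w : 0 < w x ρ0)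
    (hR : ∀ ρ ∈ Rs, ((A ρ).card : ℚ) + ∑ x ∈ Xs, w x ρ = k * c ρ)
    (hA : ∀ ρ ∈ Rs, ∀ ρ' ∈ Rs, ρ ≠ ρ' → Disjoint (A ρ) (A ρ'))
    (hN : ∀ ρ, ρ ∈ N ↔ ρ ∈ Rs ∧ 0 < w x ρ ∧ ρ ≠ ρ0)
    (hterm : ∀ ρ ∈ N, ∀ x' ∈ Xs, x' ≠ x → w x' ρ = 0)
    (hgoal : C_Goal k (Xs.erase x) (Rs \ N) (Function.update A ρ0 (A ρ0 ∪ N.biUnion A))
      (Function.update c ρ0 (c ρ0 + ∑ ρ ∈ N, c ρ - 1)) w) :
    C_Goal k Xs Rs A c w := by
  obtain ⟨L, hLam, hLQ, hL⟩ := hgoal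
  have h0N : ρ0 ∉ N := fun h => ((hN ρ0).mp h).2.2 rfl
  have hNR : N ⊆ Rs := fun ρ hρ => ((hN ρ).mp hρ).1
  have h0R' : ρ0 ∈ Rs \ N := Finset.mem_sdiff.mpr ⟨h0, h0N⟩
  set A' : R → Finset α := Function.update A ρ0 (A ρ0 ∪ N.biUnion A) with hA'
  set c' : R → ℤ := Function.update c ρ0 (c ρ0 + ∑ ρ ∈ N, c ρ - 1) with hc'
  have hA'0 : A' ρ0 = A ρ0 ∪ N.biUnion A := Function.update_self _ _ _
  have hA'n : ∀ ρ, ρ ≠ ρ0 → A' ρ = A ρ := fun ρ h => Function.update_of_ne h _ _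
  have hc'0 : c' ρ0 = c ρ0 + ∑ ρ ∈ N, c ρ - 1 := Function.update_self _ _ _
  have hc'n : ∀ ρ, ρ ≠ ρ0 → c' ρ = c ρ := fun ρ h => Function.update_of_ne h _ _
  have hdisjN : ∀ ρ ∈ Rs, ρ ∉ N → Disjoint (A ρ) (N.biUnion A) := by
    intro ρ hρ hρN
    rw [Finset.disjoint_biUnion_right]
    intro ρ' hρ'
    exact hA ρ hρ ρ' (hNR hρ') fun h => hρN (h ▸ hρ')
  have hGF : ∀ F ∈ L, N.biUnion A ⊆ F ∨ Disjoint (N.biUnion A) F := by
    intro F hF
    obtain ⟨Q, hQ, rfl⟩ := hLQ F hF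
    by_cases hQ0 : ρ0 ∈ Q
    · left
      intro a ha
      refine Finset.mem_biUnion.mpr ⟨ρ0, hQ0, ?_⟩
      rw [hA'0]
      exact Finset.mem_union_right _ ha
    · right
      rw [Finset.disjoint_biUnion_right]
      intro ρ hρ
      have hne : ρ ≠ ρ0 := fun h => hQ0 (h ▸ hρ)
      rw [hA'n ρ hne]
      exact (hdisjN ρ (Finset.mem_sdiff.mp (hQ hρ)).1 (Finset.mem_sdiff.mp (hQ hρ)).2).symm
  have hTF : ∀ T : Finset α, T ⊆ N.biUnion A → ∀ F ∈ L, T ⊆ F ∨ Disjoint T F := by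
    intro T hT F hF
    rcases hGF F hF with h | h
    · exact Or.inl (hT.trans h)
    · exact Or.inr (Disjoint.mono_left hT h)
  have hAG : ∀ ρ ∈ N, A ρ ⊆ N.biUnion A := fun ρ hρ => Finset.subset_biUnion_of_mem A hρ
  refine ⟨{F | F ∈ L ∨ F = N.biUnion A ∨ ∃ ρ ∈ N, F = A ρ}, ?_, ?_, ?_⟩
  · -- laminar
    have hsub : ∀ F, (F = N.biUnion A ∨ ∃ ρ ∈ N, F = A ρ) → F ⊆ N.biUnion A := by
      rintro F (rfl | ⟨ρ, hρ, rfl⟩)
      · exact Finset.Subset.refl _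
      · exact hAG ρ hρ
    rintro F (hF | hF) H (hH | hH)
    · exact hLam F hF H hH
    · rcases hTF H (hsub H hH) F hF with h | h
      · exact Or.inr (Or.inl h)
      · exact Or.inr (Or.inr h.symm)
    · rcases hTF F (hsub F hF) H hH with h | h
      · exact Or.inl h
      · exact Or.inr (Or.inr h)
    · rcases hF with rfl | ⟨ρ, hρ, rfl⟩
      · exact Or.inr (Or.inl (hsub H hH))
      · rcases hH with rfl | ⟨ρ', hρ', rfl⟩
        · exact Or.inl (hAG ρ hρ)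
        · by_cases h : ρ = ρ'
          · subst h
            exact Or.inl (Finset.Subset.refl _)
          · exact Or.inr (Or.inr (hA ρ (hNR hρ) ρ' (hNR hρ') h))
  · rintro F (hF | rfl | ⟨ρ, hρ, rfl⟩)
    · obtain ⟨Q, hQ, rfl⟩ := hLQ F hF
      have hQR : Q ⊆ Rs := fun ρ hρ => (Finset.mem_sdiff.mp (hQ hρ)).1
      by_cases hQ0 : ρ0 ∈ Q
      · refine ⟨Q ∪ N, Finset.union_subset hQR hNR, ?_⟩
        ext a
        simp only [Finset.mem_biUnion, Finset.mem_union]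
        constructor
        · rintro ⟨ρ, hρ, ha⟩
          by_cases hρ0 : ρ = ρ0
          · rw [hρ0, hA'0, Finset.mem_union, Finset.mem_biUnion] at ha
            rcases ha with ha | ⟨ρ', hρ', ha⟩
            · exact ⟨ρ0, Or.inl hQ0, ha⟩
            · exact ⟨ρ', Or.inr hρ', ha⟩
          · rw [hA'n ρ hρ0] at ha
            exact ⟨ρ, Or.inl hρ, ha⟩
        · rintro ⟨ρ, hρ | hρ, ha⟩
          · by_cases hρ0 : ρ = ρ0
            · refine ⟨ρ0, hQ0, ?_⟩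
              rw [hA'0, ← hρ0]
              exact Finset.mem_union_left _ ha
            · refine ⟨ρ, hρ, ?_⟩
              rw [hA'n ρ hρ0]
              exact ha
          · refine ⟨ρ0, hQ0, ?_⟩
            rw [hA'0]
            exact Finset.mem_union_right _ (Finset.mem_biUnion.mpr ⟨ρ, hρ, ha⟩)
      · refine ⟨Q, hQR, ?_⟩
        refine Finset.biUnion_congr rfl fun ρ hρ => ?_
        exact hA'n ρ fun h => hQ0 (h ▸ hρ)
    · exact ⟨N, hNR, rfl⟩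
    · exact ⟨{ρ}, Finset.singleton_subset_iff.mpr (hNR hρ), by simp⟩
  · intro W hW hBal
    have hcG := C_cardG hw hx hX h0 hR hA hN hterm
    have hle : w x ρ0 ≤ k := by
      rw [← hX]
      exact Finset.single_le_sum (f := fun ρ => w x ρ) (fun ρ _ => hw x ρ) h0
    have hk' : (0 : ℚ) < k := by exact_mod_cast hk
    -- the blocks in `N`
    have hNle : ∀ ρ ∈ N, ((W ∩ A ρ).card : ℤ) ≤ c ρ := by
      intro ρ hρ
      refine C_bal_le hk (hBal _ (Or.inr (Or.inr ⟨ρ, hρ, rfl⟩))) ?_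
      rw [C_cardA hx hR hN hterm ρ hρ]
      have := hw x ρ
      linarith
    have hBG := hBal _ (Or.inr (Or.inl rfl))
    have hG1 : ((W ∩ N.biUnion A).card : ℤ) ≤ ∑ ρ ∈ N, c ρ := by
      refine C_bal_le hk hBG ?_
      rw [hcG]
      linarith
    have hG2 : (∑ ρ ∈ N, c ρ) - 1 ≤ ((W ∩ N.biUnion A).card : ℤ) := by
      refine C_bal_ge hk hBG ?_
      rw [hcG]
      linarith
    have hGsum : ((W ∩ N.biUnion A).card : ℤ) = ∑ ρ ∈ N, ((W ∩ A ρ).card : ℤ) := by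
      rw [Finset.inter_biUnion, Finset.card_biUnion]
      · push_cast
        rfl
      · intro ρ hρ ρ' hρ' hne
        exact Disjoint.mono Finset.inter_subset_right Finset.inter_subset_right
          (hA ρ (hNR hρ) ρ' (hNR hρ') hne)
    have hterm_nonneg : ∀ ρ ∈ N, 0 ≤ c ρ - ((W ∩ A ρ).card : ℤ) := fun ρ hρ => by
      have := hNle ρ hρ
      omega
    have hsumeq : ∑ ρ ∈ N, (c ρ - ((W ∩ A ρ).card : ℤ)) =
        (∑ ρ ∈ N, c ρ) - ((W ∩ N.biUnion A).card : ℤ) := by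
      rw [Finset.sum_sub_distrib, hGsum]
    have hunion : ((W ∩ (A ρ0 ∪ N.biUnion A)).card : ℤ) =
        ((W ∩ A ρ0).card : ℤ) + ((W ∩ N.biUnion A).card : ℤ) := by
      rw [Finset.inter_union_distrib_left, Finset.card_union_of_disjoint]
      · push_cast
        rfl
      · exact Disjoint.mono Finset.inter_subset_right Finset.inter_subset_right
          (hdisjN ρ0 h0 h0N)
    obtain ⟨hup, m', hinj, hprop, hsurj⟩ := hL W (by
      intro ρ hρ
      by_cases h : ρ = ρ0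
      · rw [h, hA'0, hc'0, hunion]
        have := hW ρ0 h0
        omega
      · rw [hA'n ρ h, hc'n ρ h]
        exact hW ρ (Finset.mem_sdiff.mp hρ).1) (fun F hF => hBal F (Or.inl hF))
    have hup0 := hup ρ0 h0R'
    rw [hA'0, hc'0, hunion] at hup0
    have hW0 := hW ρ0 h0
    -- the two cases for the number of deficient blocks in `N`
    have hcases : (∃ t, (t ∈ Rs ∧ 0 < w x t ∧ ((W ∩ A t).card : ℤ) = c t - 1) ∧
        (∀ ρ ∈ N, ((W ∩ A ρ).card : ℤ) = c ρ - 1 → ρ = t) ∧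
        ((t = ρ0 ∧ ((W ∩ N.biUnion A).card : ℤ) = ∑ ρ ∈ N, c ρ) ∨
          (t ∈ N ∧ ((W ∩ N.biUnion A).card : ℤ) = ∑ ρ ∈ N, c ρ - 1))) := by
      rcases eq_or_lt_of_le hG1 with hs | hs
      · refine ⟨ρ0, ⟨h0, h0w, by omega⟩, ?_, Or.inl ⟨rfl, hs⟩⟩
        intro ρ hρ hρ1
        exfalso
        have h1 : ∑ ρ ∈ N, (c ρ - ((W ∩ A ρ).card : ℤ)) = 0 := by omega
        have h2 := (Finset.sum_eq_zero_iff_of_nonneg hterm_nonneg).mp h1 ρ hρ
        omega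
      · have hs1 : ((W ∩ N.biUnion A).card : ℤ) = ∑ ρ ∈ N, c ρ - 1 := by omega
        have h1 : ∑ ρ ∈ N, (c ρ - ((W ∩ A ρ).card : ℤ)) = 1 := by omega
        have h2 : ∃ t ∈ N, c t - ((W ∩ A t).card : ℤ) ≠ 0 := by
          by_contra hcon
          push Not at hcon
          rw [Finset.sum_eq_zero hcon] at h1
          omega
        obtain ⟨t, ht, ht0⟩ := h2
        have ht1 := hterm_nonneg t ht
        have ht2 := hW t (hNR ht)
        have ht3 : c t - ((W ∩ A t).card : ℤ) = 1 := by omega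
        rw [← Finset.add_sum_erase N _ ht, ht3] at h1
        have h3 : ∑ ρ ∈ N.erase t, (c ρ - ((W ∩ A ρ).card : ℤ)) = 0 := by omega
        have h4 := (Finset.sum_eq_zero_iff_of_nonneg
          (fun ρ hρ => hterm_nonneg ρ (Finset.mem_of_mem_erase hρ))).mp h3
        refine ⟨t, ⟨hNR ht, ((hN t).mp ht).2.1, by omega⟩, ?_, Or.inr ⟨ht, hs1⟩⟩
        intro ρ hρ hρ1
        by_contra hne
        have := h4 ρ (Finset.mem_erase.mpr ⟨hne, hρ⟩)
        omega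
    obtain ⟨t, ht, htN, htc⟩ := hcases
    have hm't : ∀ y ∈ Xs.erase x, m' y ≠ t := by
      intro y hy hyt
      obtain ⟨h1, -, h2⟩ := hprop y hy
      rcases htc with ⟨rfl, hs⟩ | ⟨htN', hs⟩
      · rw [hyt, hA'0, hc'0, hunion] at h2
        omega
      · rw [hyt] at h1
        exact (Finset.mem_sdiff.mp h1).2 htN'
    refine ⟨?_, fun y => if y = x then t else m' y, ?_, ?_, ?_⟩
    · intro ρ hρ
      by_cases hρN : ρ ∈ N
      · exact hNle ρ hρN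
      · by_cases h : ρ = ρ0
        · rw [h]
          omega
        · have := hup ρ (Finset.mem_sdiff.mpr ⟨hρ, hρN⟩)
          rwa [hA'n ρ h, hc'n ρ h] at this
    · intro y hy y' hy' hyy'
      simp only at hyy'
      by_cases h1 : y = x
      · by_cases h2 : y' = x
        · rw [h1, h2]
        · rw [if_pos h1, if_neg h2] at hyy'
          exact absurd hyy'.symm (hm't y' (Finset.mem_erase.mpr ⟨h2, hy'⟩))
      · by_cases h2 : y' = x
        · rw [if_neg h1, if_pos h2] at hyy'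
          exact absurd hyy' (hm't y (Finset.mem_erase.mpr ⟨h1, hy⟩))
        · rw [if_neg h1, if_neg h2] at hyy'
          exact hinj (Finset.mem_coe.mpr (Finset.mem_erase.mpr ⟨h1, hy⟩))
            (Finset.mem_coe.mpr (Finset.mem_erase.mpr ⟨h2, hy'⟩)) hyy'
    · intro y hy
      by_cases h1 : y = x
      · simp only [h1, if_true]
        exact ht
      · simp only [h1, if_false]
        obtain ⟨h2, h3, h4⟩ := hprop y (Finset.mem_erase.mpr ⟨h1, hy⟩)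
        refine ⟨(Finset.mem_sdiff.mp h2).1, h3, ?_⟩
        by_cases h5 : m' y = ρ0
        · rw [h5, hA'0, hc'0, hunion] at h4
          rw [h5]
          rcases htc with ⟨-, hs⟩ | ⟨-, hs⟩ <;> omega
        · rwa [hA'n _ h5, hc'n _ h5] at h4
    · intro ρ hρ hρ1
      by_cases hρN : ρ ∈ N
      · exact ⟨x, hx, by simp only [if_true]; exact (htN ρ hρN hρ1).symm⟩
      · by_cases h : ρ = ρ0
        · rcases htc with ⟨ht0, hs⟩ | ⟨-, hs⟩
          · exact ⟨x, hx, by simp only [if_true]; rw [h, ht0]⟩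
          · obtain ⟨y, hy, hy1⟩ := hsurj ρ0 h0R' (by
              rw [hA'0, hc'0, hunion]
              rw [h] at hρ1
              omega)
            refine ⟨y, Finset.mem_of_mem_erase hy, ?_⟩
            simp only [Finset.ne_of_mem_erase hy, if_false]
            rw [hy1, h]
        · obtain ⟨y, hy, hy1⟩ := hsurj ρ (Finset.mem_sdiff.mpr ⟨hρ, hρN⟩) (by
            rw [hA'n ρ h, hc'n ρ h]
            exact hρ1)
          refine ⟨y, Finset.mem_of_mem_erase hy, ?_⟩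
          simp only [Finset.ne_of_mem_erase hy, if_false]
          exact hy1

end Case1

/-- The induction of block C. -/
theorem C_main {α X R : Type*} [DecidableEq α] [DecidableEq X] [DecidableEq R] [Nonempty R]
    (k : ℕ) (hk : 0 < k) : ∀ (n : ℕ) (Xs : Finset X) (Rs : Finset R) (A : R → Finset α)
    (c : R → ℤ) (w : X → R → ℚ),
    ((Xs ×ˢ Rs).filter (fun p => 0 < w p.1 p.2)).card = n → (∀ x ρ, 0 ≤ w x ρ) →
    (∀ x ∈ Xs, ∑ ρ ∈ Rs, w x ρ = k) →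
    (∀ ρ ∈ Rs, ((A ρ).card : ℚ) + ∑ x ∈ Xs, w x ρ = k * c ρ) →
    (∀ ρ ∈ Rs, ∀ ρ' ∈ Rs, ρ ≠ ρ' → Disjoint (A ρ) (A ρ')) → C_Goal k Xs Rs A c w := by
  intro n
  induction n using Nat.strong_induction_on with
  | _ n ih =>
    intro Xs Rs A c w hcard hw hX hR hA
    have hk' : (0 : ℚ) < k := by exact_mod_cast hk
    rcases Xs.eq_empty_or_nonempty with rfl | hne
    · refine ⟨{F | ∃ ρ ∈ Rs, F = A ρ}, ?_, ?_, ?_⟩
      · rintro F ⟨ρ, hρ, rfl⟩ H ⟨ρ', hρ', rfl⟩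
        by_cases h : ρ = ρ'
        · subst h
          exact Or.inl (Finset.Subset.refl _)
        · exact Or.inr (Or.inr (hA ρ hρ ρ' hρ' h))
      · rintro F ⟨ρ, hρ, rfl⟩
        exact ⟨{ρ}, Finset.singleton_subset_iff.mpr hρ, by simp⟩
      · intro W _ hBal
        have heq : ∀ ρ ∈ Rs, ((W ∩ A ρ).card : ℤ) = c ρ := by
          intro ρ hρ
          refine C_bal_eq hk (hBal _ ⟨ρ, hρ, rfl⟩) ?_
          have := hR ρ hρ
          rwa [Finset.sum_empty, add_zero] at this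
        refine ⟨fun ρ hρ => (heq ρ hρ).le, fun _ => Classical.arbitrary R, ?_, ?_, ?_⟩
        · intro y hy
          simp at hy
        · intro y hy
          simp at hy
        · intro ρ hρ h
          have := heq ρ hρ
          omega
    · by_cases hcase : ∃ x ∈ Xs, ∀ ρ₁ ∈ Rs, ∀ ρ₂ ∈ Rs,
          (0 < w x ρ₁ ∧ ∃ x' ∈ Xs, x' ≠ x ∧ 0 < w x' ρ₁) →
          (0 < w x ρ₂ ∧ ∃ x' ∈ Xs, x' ≠ x ∧ 0 < w x' ρ₂) → ρ₁ = ρ₂
      · obtain ⟨x, hx, hx1⟩ := hcase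
        have hex : ∃ ρ0 ∈ Rs, 0 < w x ρ0 ∧ ∀ ρ ∈ Rs, 0 < w x ρ → ρ ≠ ρ0 →
            ∀ x' ∈ Xs, x' ≠ x → w x' ρ = 0 := by
          by_cases hnt : ∃ ρ ∈ Rs, 0 < w x ρ ∧ ∃ x' ∈ Xs, x' ≠ x ∧ 0 < w x' ρ
          · obtain ⟨ρ0, h0, h0w, h0'⟩ := hnt
            refine ⟨ρ0, h0, h0w, fun ρ hρ hρw hne x' hx' hxx' => ?_⟩
            by_contra hcon
            exact hne (hx1 ρ hρ ρ0 h0
              ⟨hρw, x', hx', hxx', lt_of_le_of_ne (hw x' ρ) (Ne.symm hcon)⟩ ⟨h0w, h0'⟩)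
          · have hpos : ∃ ρ0 ∈ Rs, 0 < w x ρ0 := by
              by_contra hcon
              push Not at hcon
              have h1 := hX x hx
              rw [Finset.sum_eq_zero fun ρ hρ => le_antisymm (hcon ρ hρ) (hw x ρ)] at h1
              linarith
            obtain ⟨ρ0, h0, h0w⟩ := hpos
            refine ⟨ρ0, h0, h0w, fun ρ hρ hρw _ x' hx' hxx' => ?_⟩
            by_contra hcon
            exact hnt ⟨ρ, hρ, hρw, x', hx', hxx', lt_of_le_of_ne (hw x' ρ) (Ne.symm hcon)⟩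
        obtain ⟨ρ0, h0, h0w, hterm'⟩ := hex
        set N : Finset R := Rs.filter (fun ρ => 0 < w x ρ ∧ ρ ≠ ρ0) with hNdef
        have hN : ∀ ρ, ρ ∈ N ↔ ρ ∈ Rs ∧ 0 < w x ρ ∧ ρ ≠ ρ0 := fun ρ => by
          rw [hNdef, Finset.mem_filter]
        have hterm : ∀ ρ ∈ N, ∀ x' ∈ Xs, x' ≠ x → w x' ρ = 0 := by
          intro ρ hρ
          obtain ⟨h1, h2, h3⟩ := (hN ρ).mp hρ
          exact hterm' ρ h1 h2 h3
        have h0N : ρ0 ∉ N := fun h => ((hN ρ0).mp h).2.2 rfl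
        have hNR : N ⊆ Rs := fun ρ hρ => ((hN ρ).mp hρ).1
        refine C_case1 hk hw hx (hX x hx) h0 h0w hR hA hN hterm ?_
        refine ih _ ?_ _ _ _ _ _ rfl hw ?_ ?_ ?_
        · rw [← hcard]
          apply Finset.card_lt_card
          refine ⟨?_, ?_⟩
          · intro p hp
            rw [Finset.mem_filter, Finset.mem_product] at hp ⊢
            exact ⟨⟨Finset.mem_of_mem_erase hp.1.1, (Finset.mem_sdiff.mp hp.1.2).1⟩, hp.2⟩
          · intro hsub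
            have hmem : (x, ρ0) ∈ (Xs ×ˢ Rs).filter (fun p => 0 < w p.1 p.2) :=
              Finset.mem_filter.mpr ⟨Finset.mem_product.mpr ⟨hx, h0⟩, h0w⟩
            have h1 := (Finset.mem_product.mp (Finset.mem_filter.mp (hsub hmem)).1).1
            exact Finset.ne_of_mem_erase h1 rfl
        · intro y hy
          have h1 := hX y (Finset.mem_of_mem_erase hy)
          rw [← Finset.sum_sdiff hNR, Finset.sum_eq_zero (s := N), add_zero] at h1
          · exact h1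
          · intro ρ hρ
            exact hterm ρ hρ y (Finset.mem_of_mem_erase hy) (Finset.ne_of_mem_erase hy)
        · intro ρ hρ
          obtain ⟨hρR, hρN⟩ := Finset.mem_sdiff.mp hρ
          have h1 := hR ρ hρR
          rw [← Finset.add_sum_erase Xs _ hx] at h1
          by_cases h : ρ = ρ0
          · subst h
            rw [Function.update_self, Function.update_self]
            have hdis : Disjoint (A ρ) (N.biUnion A) := by
              rw [Finset.disjoint_biUnion_right]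
              intro ρ' hρ'
              exact hA ρ hρR ρ' (hNR hρ') fun h => hρN (h ▸ hρ')
            rw [Finset.card_union_of_disjoint hdis]
            push_cast
            have hcG := C_cardG hw hx (hX x hx) h0 hR hA hN hterm
            push_cast at hcG
            rw [hcG]
            linarith
          · rw [Function.update_of_ne h, Function.update_of_ne h]
            have hz : w x ρ = 0 := by
              by_contra hcon
              exact hρN ((hN ρ).mpr ⟨hρR, lt_of_le_of_ne (hw x ρ) (Ne.symm hcon), h⟩)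
            rw [hz, zero_add] at h1
            exact h1
        · have hdisjN : ∀ ρ ∈ Rs, ρ ∉ N → Disjoint (A ρ) (N.biUnion A) := by
            intro ρ hρ hρN
            rw [Finset.disjoint_biUnion_right]
            intro ρ' hρ'
            exact hA ρ hρ ρ' (hNR hρ') fun h => hρN (h ▸ hρ')
          intro ρ hρ ρ' hρ' hne'
          obtain ⟨hρR, hρN⟩ := Finset.mem_sdiff.mp hρ
          obtain ⟨hρR', hρN'⟩ := Finset.mem_sdiff.mp hρ'
          by_cases h : ρ = ρ0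
          · have h' : ρ' ≠ ρ0 := fun h' => hne' (h.trans h'.symm)
            rw [h, Function.update_self, Function.update_of_ne h', Finset.disjoint_union_left]
            exact ⟨hA ρ0 h0 ρ' hρR' (Ne.symm h'), (hdisjN ρ' hρR' hρN').symm⟩
          · rw [Function.update_of_ne h]
            by_cases h' : ρ' = ρ0
            · rw [h', Function.update_self, Finset.disjoint_union_right]
              exact ⟨hA ρ hρR ρ0 h0 h, hdisjN ρ hρR hρN⟩
            · rw [Function.update_of_ne h']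
              exact hA ρ hρR ρ' hρR' hne'
      · push Not at hcase
        obtain ⟨w', hw', hzero, ⟨x1, hx1, ρ1, hρ1, hpos, hz1⟩, hrow, hcol⟩ :=
          reduce_support Xs Rs w hw hne (by
            intro x hx
            obtain ⟨ρ₁, h1, ρ₂, h2, ⟨ha, hb⟩, ⟨hc, hd⟩, hne12⟩ := hcase x hx
            exact ⟨ρ₁, h1, ρ₂, h2, hne12, ha, hc, hb, hd⟩)
        have hpos' : ∀ x ρ, 0 < w' x ρ → 0 < w x ρ := by
          intro x ρ h
          refine lt_of_le_of_ne (hw x ρ) fun h0 => ?_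
          rw [hzero x ρ h0.symm] at h
          exact lt_irrefl _ h
        obtain ⟨L, hLam, hLQ, hL⟩ := ih _ (by
          rw [← hcard]
          apply Finset.card_lt_card
          refine ⟨?_, ?_⟩
          · intro p hp
            rw [Finset.mem_filter] at hp ⊢
            exact ⟨hp.1, hpos' _ _ hp.2⟩
          · intro hsub
            have hmem : (x1, ρ1) ∈ (Xs ×ˢ Rs).filter (fun p => 0 < w p.1 p.2) :=
              Finset.mem_filter.mpr ⟨Finset.mem_product.mpr ⟨hx1, hρ1⟩, hpos⟩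
            have h1 := (Finset.mem_filter.mp (hsub hmem)).2
            simp only at h1
            rw [hz1] at h1
            exact lt_irrefl _ h1) Xs Rs A c w' rfl hw'
          (fun x hx => by rw [hrow x]; exact hX x hx)
          (fun ρ hρ => by rw [hcol ρ]; exact hR ρ hρ) hA
        refine ⟨L, hLam, hLQ, fun W hW hBal => ?_⟩
        obtain ⟨h1, m, h2, h3, h4⟩ := hL W hW hBal
        exact ⟨h1, m, h2, fun x hx => ⟨(h3 x hx).1, hpos' _ _ (h3 x hx).2.1, (h3 x hx).2.2⟩, h4⟩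

/-- BLOCK C. -/
theorem exists_laminar {α X R : Type*} [DecidableEq α] [DecidableEq X] [DecidableEq R]
    [Nonempty R]
    (k : ℕ) (hk : 0 < k) (Xs : Finset X) (Rs : Finset R) (A : R → Finset α) (c : R → ℤ)
    (w : X → R → ℚ) (hw : ∀ x ρ, 0 ≤ w x ρ)
    (hX : ∀ x ∈ Xs, ∑ ρ ∈ Rs, w x ρ = k)
    (hR : ∀ ρ ∈ Rs, ((A ρ).card : ℚ) + ∑ x ∈ Xs, w x ρ = k * c ρ)
    (hA : ∀ ρ ∈ Rs, ∀ ρ' ∈ Rs, ρ ≠ ρ' → Disjoint (A ρ) (A ρ')) :
    ∃ L : Set (Finset α), Laminar L ∧ (∀ F ∈ L, ∃ Q ⊆ Rs, F = Q.biUnion A) ∧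
      ∀ W : Finset α, (∀ ρ ∈ Rs, c ρ - 1 ≤ ((W ∩ A ρ).card : ℤ)) → (∀ F ∈ L, Bal k W F) →
        (∀ ρ ∈ Rs, ((W ∩ A ρ).card : ℤ) ≤ c ρ) ∧
        ∃ m : X → R, Set.InjOn m ↑Xs ∧
          (∀ x ∈ Xs, m x ∈ Rs ∧ 0 < w x (m x) ∧ ((W ∩ A (m x)).card : ℤ) = c (m x) - 1) ∧
          ∀ ρ ∈ Rs, ((W ∩ A ρ).card : ℤ) = c ρ - 1 → ∃ x ∈ Xs, m x = ρ :=
  C_main k hk _ Xs Rs A c w rfl hw hX hR hA

end Helper20.CY
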