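import Pool.Agent.Helper20.CY.Defs

namespace Helper20.CY

/-- Auxiliary: a nontrivial `z` supported on `E` with vanishing row and column sums. -/
theorem C2_exists_z {X R : Type*} [DecidableEq X] [DecidableEq R] (Xs : Finset X)
    (Rs : Finset R) (E : Finset (X × R)) (hE : E ⊆ Xs ×ˢ Rs) (hne : Xs.Nonempty)
    (hX : ∀ x ∈ Xs, 2 ≤ (E.filter (fun p => p.1 = x)).card)
    (hR : ∀ ρ ∈ Rs, (∃ x, (x, ρ) ∈ E) → 2 ≤ (E.filter (fun p => p.2 = ρ)).card) :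
    ∃ z : X → R → ℚ, (∀ x ρ, (x, ρ) ∉ E → z x ρ = 0) ∧ (∃ x ρ, z x ρ ≠ 0) ∧
      (∀ x, ∑ ρ ∈ Rs, z x ρ = 0) ∧ (∀ ρ, ∑ x ∈ Xs, z x ρ = 0) := by
  classical
  obtain ⟨x0, hx0⟩ := hne
  set R' : Finset R := E.image Prod.snd with hR'def
  have hR's : R' ⊆ Rs := by
    intro ρ hρ
    obtain ⟨p, hp, rfl⟩ := Finset.mem_image.mp hρ
    exact (Finset.mem_product.mp (hE hp)).2
  have hcX : 2 * Xs.card ≤ E.card := by
    have h1 : E.card = ∑ x ∈ Xs, (E.filter (fun p => p.1 = x)).card :=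
      Finset.card_eq_sum_card_fiberwise fun p hp => (Finset.mem_product.mp (hE hp)).1
    rw [h1, mul_comm, ← smul_eq_mul, ← Finset.sum_const]
    exact Finset.sum_le_sum hX
  have hcR : 2 * R'.card ≤ E.card := by
    have h1 : E.card = ∑ ρ ∈ R', (E.filter (fun p => p.2 = ρ)).card :=
      Finset.card_eq_sum_card_fiberwise fun p hp => Finset.mem_image_of_mem _ hp
    rw [h1, mul_comm, ← smul_eq_mul, ← Finset.sum_const]
    refine Finset.sum_le_sum fun ρ hρ => ?_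
    obtain ⟨p, hp, rfl⟩ := Finset.mem_image.mp hρ
    exact hR _ (hR's hρ) ⟨p.1, hp⟩
  let ι := {x // x ∈ Xs.erase x0} ⊕ {ρ // ρ ∈ R'}
  let v : {p // p ∈ E} → ι → ℚ := fun p s =>
    match s with
    | Sum.inl x => if p.1.1 = x.1 then 1 else 0
    | Sum.inr ρ => if p.1.2 = ρ.1 then 1 else 0
  have hnl : ¬ LinearIndependent ℚ v := by
    intro hli
    have h1 := hli.fintype_card_le_finrank
    rw [Module.finrank_fintype_fun_eq_card, Fintype.card_sum, Fintype.card_coe, Fintype.card_coe,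
      Fintype.card_coe, Finset.card_erase_of_mem hx0] at h1
    have h2 : 0 < Xs.card := Finset.card_pos.mpr ⟨x0, hx0⟩
    omega
  obtain ⟨g, hg, ⟨⟨i, hiE⟩, hi⟩⟩ := Fintype.not_linearIndependent_iff.mp hnl
  let z : X → R → ℚ := fun x ρ => if h : (x, ρ) ∈ E then g ⟨(x, ρ), h⟩ else 0
  have hz0 : ∀ x ρ, (x, ρ) ∉ E → z x ρ = 0 := fun x ρ h => dif_neg h
  have hzE : ∀ p : {p // p ∈ E}, z p.1.1 p.1.2 = g p := fun p => dif_pos p.2
  have hsum : ∀ φ : X × R → ℚ, ∑ p : {p // p ∈ E}, g p * φ p.1 =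
      ∑ x ∈ Xs, ∑ ρ ∈ Rs, z x ρ * φ (x, ρ) := by
    intro φ
    rw [← Finset.sum_product' Xs Rs (fun x ρ => z x ρ * φ (x, ρ))]
    have h1 : ∑ p : {p // p ∈ E}, g p * φ p.1 = ∑ p : {p // p ∈ E}, z p.1.1 p.1.2 * φ p.1 :=
      Finset.sum_congr rfl fun p _ => by rw [hzE p]
    rw [h1, Finset.univ_eq_attach, Finset.sum_attach E (fun p => z p.1 p.2 * φ p)]
    refine Finset.sum_subset hE fun p _ hp => ?_
    rw [hz0 p.1 p.2 hp, zero_mul]
  have hcol : ∀ ρ, ∑ x ∈ Xs, z x ρ = 0 := by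
    intro ρ
    by_cases hρ : ρ ∈ R'
    · have h1 := congrFun hg (Sum.inr ⟨ρ, hρ⟩)
      simp only [Finset.sum_apply, Pi.smul_apply, smul_eq_mul, Pi.zero_apply, v] at h1
      rw [hsum (fun p => if p.2 = ρ then 1 else 0)] at h1
      rw [← h1]
      refine Finset.sum_congr rfl fun x _ => ?_
      simp [hR's hρ]
    · refine Finset.sum_eq_zero fun x _ => hz0 x ρ fun h => hρ ?_
      exact Finset.mem_image.mpr ⟨(x, ρ), h, rfl⟩
  have hrow' : ∀ x ∈ Xs, x ≠ x0 → ∑ ρ ∈ Rs, z x ρ = 0 := by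
    intro x hx hxx
    have h1 := congrFun hg (Sum.inl ⟨x, Finset.mem_erase.mpr ⟨hxx, hx⟩⟩)
    simp only [Finset.sum_apply, Pi.smul_apply, smul_eq_mul, Pi.zero_apply, v] at h1
    rw [hsum (fun p => if p.1 = x then 1 else 0)] at h1
    rw [← h1, Finset.sum_comm]
    refine Finset.sum_congr rfl fun ρ _ => ?_
    simp [hx]
  have hrow : ∀ x, ∑ ρ ∈ Rs, z x ρ = 0 := by
    intro x
    by_cases hx : x ∈ Xs
    · by_cases hxx : x = x0
      · subst hxx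
        have h1 : ∑ x ∈ Xs, ∑ ρ ∈ Rs, z x ρ = 0 := by
          rw [Finset.sum_comm]
          exact Finset.sum_eq_zero fun ρ _ => hcol ρ
        rw [← Finset.add_sum_erase Xs _ hx] at h1
        rwa [Finset.sum_eq_zero (s := Xs.erase x), add_zero] at h1
        intro y hy
        exact hrow' y (Finset.mem_of_mem_erase hy) (Finset.ne_of_mem_erase hy)
      · exact hrow' x hx hxx
    · refine Finset.sum_eq_zero fun ρ _ => hz0 x ρ fun h => hx ?_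
      exact (Finset.mem_product.mp (hE h)).1
  exact ⟨z, hz0, ⟨i.1, i.2, by rw [hzE ⟨i, hiE⟩]; exact hi⟩, hrow, hcol⟩

/-- BLOCK C2. -/
theorem reduce_support {X R : Type*} [DecidableEq X] [DecidableEq R] (Xs : Finset X)
    (Rs : Finset R) (w : X → R → ℚ) (hw : ∀ x ρ, 0 ≤ w x ρ) (hne : Xs.Nonempty)
    (h2 : ∀ x ∈ Xs, ∃ ρ₁ ∈ Rs, ∃ ρ₂ ∈ Rs, ρ₁ ≠ ρ₂ ∧ 0 < w x ρ₁ ∧ 0 < w x ρ₂ ∧
      (∃ x' ∈ Xs, x' ≠ x ∧ 0 < w x' ρ₁) ∧ (∃ x' ∈ Xs, x' ≠ x ∧ 0 < w x' ρ₂)) :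
    ∃ w' : X → R → ℚ, (∀ x ρ, 0 ≤ w' x ρ) ∧ (∀ x ρ, w x ρ = 0 → w' x ρ = 0) ∧
      (∃ x ∈ Xs, ∃ ρ ∈ Rs, 0 < w x ρ ∧ w' x ρ = 0) ∧
      (∀ x, ∑ ρ ∈ Rs, w' x ρ = ∑ ρ ∈ Rs, w x ρ) ∧
      (∀ ρ, ∑ x ∈ Xs, w' x ρ = ∑ x ∈ Xs, w x ρ) := by
  classical
  set E : Finset (X × R) := (Xs ×ˢ Rs).filter
    (fun p => 0 < w p.1 p.2 ∧ ∃ x' ∈ Xs, x' ≠ p.1 ∧ 0 < w x' p.2) with hEdef
  have hEmem : ∀ x ρ, (x, ρ) ∈ E ↔ (x ∈ Xs ∧ ρ ∈ Rs) ∧ 0 < w x ρ ∧
      ∃ x' ∈ Xs, x' ≠ x ∧ 0 < w x' ρ := by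
    intro x ρ
    rw [hEdef, Finset.mem_filter, Finset.mem_product]
  obtain ⟨z, hz0, ⟨x1, ρ1, hne1⟩, hrow, hcol⟩ := C2_exists_z Xs Rs E (Finset.filter_subset _ _)
    hne (by
      intro x hx
      obtain ⟨ρ₁, h1, ρ₂, h2', hn, hw1, hw2, he1, he2⟩ := h2 x hx
      have hsub : ({(x, ρ₁), (x, ρ₂)} : Finset (X × R)) ⊆ E.filter (fun p => p.1 = x) := by
        intro p hp
        rw [Finset.mem_insert, Finset.mem_singleton] at hp
        rcases hp with rfl | rfl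
        · exact Finset.mem_filter.mpr ⟨(hEmem _ _).mpr ⟨⟨hx, h1⟩, hw1, he1⟩, rfl⟩
        · exact Finset.mem_filter.mpr ⟨(hEmem _ _).mpr ⟨⟨hx, h2'⟩, hw2, he2⟩, rfl⟩
      calc 2 = ({(x, ρ₁), (x, ρ₂)} : Finset (X × R)).card := by
            rw [Finset.card_pair]
            intro h
            exact hn (Prod.ext_iff.mp h).2
        _ ≤ _ := Finset.card_le_card hsub)
    (by
      rintro ρ hρ ⟨x, hx⟩
      obtain ⟨⟨hxX, -⟩, hwx, x', hx', hxx', hwx'⟩ := (hEmem _ _).mp hx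
      have hsub : ({(x, ρ), (x', ρ)} : Finset (X × R)) ⊆ E.filter (fun p => p.2 = ρ) := by
        intro p hp
        rw [Finset.mem_insert, Finset.mem_singleton] at hp
        rcases hp with rfl | rfl
        · exact Finset.mem_filter.mpr ⟨hx, rfl⟩
        · exact Finset.mem_filter.mpr
            ⟨(hEmem _ _).mpr ⟨⟨hx', hρ⟩, hwx', x, hxX, hxx'.symm, hwx⟩, rfl⟩
      calc 2 = ({(x, ρ), (x', ρ)} : Finset (X × R)).card := by
            rw [Finset.card_pair]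
            intro h
            exact hxx' (Prod.ext_iff.mp h).1.symm
        _ ≤ _ := Finset.card_le_card hsub)
  -- a negative entry
  have hneg : ∃ p ∈ E, z p.1 p.2 < 0 := by
    by_contra hcon
    push Not at hcon
    have hnn : ∀ x ρ, 0 ≤ z x ρ := by
      intro x ρ
      by_cases h : (x, ρ) ∈ E
      · exact hcon _ h
      · rw [hz0 x ρ h]
    have h1 : (x1, ρ1) ∈ E := by
      by_contra h
      exact hne1 (hz0 _ _ h)
    have h2'' := (Finset.sum_eq_zero_iff_of_nonneg (fun ρ _ => hnn x1 ρ)).mp (hrow x1) ρ1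
      ((hEmem _ _).mp h1).1.2
    exact hne1 h2''
  obtain ⟨q, hq, hmin⟩ := Finset.exists_min_image (E.filter (fun p => z p.1 p.2 < 0))
    (fun p => w p.1 p.2 / (-z p.1 p.2)) (by
      obtain ⟨p, hp, hp'⟩ := hneg
      exact ⟨p, Finset.mem_filter.mpr ⟨hp, hp'⟩⟩)
  obtain ⟨hqE, hqz⟩ := Finset.mem_filter.mp hq
  set t : ℚ := w q.1 q.2 / (-z q.1 q.2) with ht
  have ht0 : 0 ≤ t := div_nonneg (hw _ _) (by linarith)
  have hqw : 0 < w q.1 q.2 := ((hEmem q.1 q.2).mp hqE).2.1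
  refine ⟨fun x ρ => w x ρ + t * z x ρ, ?_, ?_, ?_, ?_, ?_⟩
  · intro x ρ
    rcases le_or_gt 0 (z x ρ) with h | h
    · exact add_nonneg (hw _ _) (mul_nonneg ht0 h)
    · have hE' : (x, ρ) ∈ E := by
        by_contra hc
        rw [hz0 x ρ hc] at h
        exact lt_irrefl _ h
      have h3 : t ≤ w x ρ / (-z x ρ) := hmin (x, ρ) (Finset.mem_filter.mpr ⟨hE', h⟩)
      rw [le_div_iff₀ (by linarith)] at h3
      change 0 ≤ w x ρ + t * z x ρ
      linarith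
  · intro x ρ h
    have hE' : (x, ρ) ∉ E := by
      intro hc
      have := ((hEmem _ _).mp hc).2.1
      rw [h] at this
      exact lt_irrefl _ this
    change w x ρ + t * z x ρ = 0
    rw [h, hz0 x ρ hE', mul_zero, add_zero]
  · obtain ⟨⟨hx, hρ⟩, -⟩ := (hEmem q.1 q.2).mp hqE
    refine ⟨q.1, hx, q.2, hρ, hqw, ?_⟩
    change w q.1 q.2 + t * z q.1 q.2 = 0
    have : z q.1 q.2 ≠ 0 := hqz.ne
    rw [ht]
    field_simp
    ring
  · intro x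
    rw [Finset.sum_add_distrib, ← Finset.mul_sum, hrow x, mul_zero, add_zero]
  · intro ρ
    rw [Finset.sum_add_distrib, ← Finset.mul_sum, hcol ρ, mul_zero, add_zero]

end Helper20.CY
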