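import Mathlib

/-!
Definitions for the theorem that the cyclic ordering conjecture holds for gammoids
(MP_f2948c_co).
-/

namespace Helper20.CY

/-- The list `L` is a directed path (no repeated vertex, consecutive vertices joined by arcs)
which starts at `v` and ends in the set `T`. -/
def IsPathTo {V : Type*} (arc : V → V → Prop) (T : Set V) (v : V) (L : List V) : Prop :=
  L.head? = some v ∧ L.Nodup ∧ List.IsChain arc L ∧ ∃ t ∈ T, L.getLast? = some t

/-- The set `I` of vertices of the directed graph `arc` is linked into `T`: there are pairwise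
vertex-disjoint directed paths, one from every vertex of `I`, which end in `T`. -/
def Linked {V : Type*} (arc : V → V → Prop) (T : Set V) (I : Set V) : Prop :=
  ∃ P : V → List V, (∀ v ∈ I, IsPathTo arc T v (P v)) ∧
    ∀ u ∈ I, ∀ v ∈ I, u ≠ v → List.Disjoint (P u) (P v)

/-- `M` is a gammoid: its ground set sits (through `f`) in the vertex set of a finite directed
graph, and a set is independent iff it is linked into a fixed set `T` of vertices. -/
def IsGammoid {α : Type*} (M : Matroid α) : Prop :=
  ∃ (V : Type) (_ : Finite V) (arc : V → V → Prop) (T : Set V) (f : α → V),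
    Set.InjOn f M.E ∧ ∀ I ⊆ M.E, (M.Indep I ↔ Linked arc T (f '' I))

/-- `W` is balanced on `F` (with respect to the density `1/k`): the number `n` of elements of
`F` in `W` satisfies `⌊|F|/k⌋ ≤ n ≤ ⌈|F|/k⌉`. -/
def Bal {α : Type*} [DecidableEq α] (k : ℕ) (W F : Finset α) : Prop :=
  F.card < k * (W ∩ F).card + k ∧ k * (W ∩ F).card < F.card + k

/-- Laminar family of finite sets. -/
def Laminar {α : Type*} (L : Set (Finset α)) : Prop :=
  ∀ F ∈ L, ∀ G ∈ L, F ⊆ G ∨ G ⊆ F ∨ Disjoint F G

end Helper20.CY
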