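import Pool.Agent.Helper20.CY.Defs

/-!
Block L1: disjoint paths give a matching.
-/

namespace Helper20.CY

section

variable {V : Type*} {arc : V → V → Prop} {T : Set V} {I : Finset V} {P : V → List V}

/-- the relation `θ v = y` -/
def L1_R (I : Finset V) (P : V → List V) (v : V) : V ⊕ Fin I.card → Prop
  | Sum.inl w => (∃ u ∈ I, ∃ i, (P u)[i]? = some v ∧ (P u)[i + 1]? = some w) ∨
      (w = v ∧ ∀ u ∈ I, v ∉ P u)
  | Sum.inr j => ∃ u, ∃ hu : u ∈ I, I.equivFin ⟨u, hu⟩ = j ∧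
      ∃ i, (P u)[i]? = some v ∧ (P u)[i + 1]? = none

theorem L1_exists (I : Finset V) (P : V → List V) (v : V) : ∃ y, L1_R I P v y := by
  classical
  by_cases h : ∃ u ∈ I, v ∈ P u
  · obtain ⟨u, hu, hv⟩ := h
    obtain ⟨i, hi⟩ := List.mem_iff_getElem?.1 hv
    rcases hn : (P u)[i + 1]? with _ | w
    · exact ⟨Sum.inr (I.equivFin ⟨u, hu⟩), u, hu, rfl, i, hi, hn⟩
    · exact ⟨Sum.inl w, Or.inl ⟨u, hu, i, hi, hn⟩⟩
  · push Not at h
    exact ⟨Sum.inl v, Or.inr ⟨rfl, h⟩⟩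

theorem L1_uniq_path (hdis : ∀ u ∈ I, ∀ v ∈ I, u ≠ v → List.Disjoint (P u) (P v)) {u u' w : V}
    (hu : u ∈ I) (hu' : u' ∈ I) (h : w ∈ P u) (h' : w ∈ P u') : u = u' := by
  by_contra hne
  exact hdis u hu u' hu' hne h h'

theorem L1_mem {L : List V} {i : ℕ} {v : V} (h : L[i]? = some v) : v ∈ L :=
  List.mem_iff_getElem?.2 ⟨i, h⟩

theorem L1_idx {L : List V} (hL : L.Nodup) {i j : ℕ} {v : V} (h : L[i]? = some v)
    (h' : L[j]? = some v) : i = j := by
  obtain ⟨hi, h1⟩ := List.getElem?_eq_some_iff.1 h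
  obtain ⟨hj, h2⟩ := List.getElem?_eq_some_iff.1 h'
  exact (hL.getElem_inj_iff).1 (h1.trans h2.symm)

theorem L1_last {L : List V} {i j : ℕ} {v w : V} (h : L[i]? = some v) (hn : L[i + 1]? = none)
    (h' : L[j]? = some w) (hn' : L[j + 1]? = none) : v = w := by
  obtain ⟨hi, h1⟩ := List.getElem?_eq_some_iff.1 h
  obtain ⟨hj, h2⟩ := List.getElem?_eq_some_iff.1 h'
  have h3 := List.getElem?_eq_none_iff.1 hn
  have h4 := List.getElem?_eq_none_iff.1 hn'
  have h5 : i = j := by omega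
  subst h5
  exact h1.symm.trans h2

end

/-- BLOCK L1. -/
theorem match_of_linked {V : Type*} [Finite V] {arc : V → V → Prop} {T : Set V}
    {I : Finset V} (h : Linked arc T (I : Set V)) :
    ∃ θ : V → V ⊕ Fin I.card, Function.Injective θ ∧
      (∀ v u, θ v = Sum.inl u → u = v ∨ arc v u) ∧ (∀ v j, θ v = Sum.inr j → v ∈ T) ∧
      ∀ v ∈ I, ∀ u, θ u ≠ Sum.inl v := by
  obtain ⟨P, hP, hdis'⟩ := h
  have hdis : ∀ u ∈ I, ∀ v ∈ I, u ≠ v → List.Disjoint (P u) (P v) :=
    fun u hu v hv => hdis' u (Finset.mem_coe.2 hu) v (Finset.mem_coe.2 hv)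
  have hP' : ∀ v ∈ I, IsPathTo arc T v (P v) := fun v hv => hP v (Finset.mem_coe.2 hv)
  choose θ hθ using L1_exists I P
  refine ⟨θ, ?_, ?_, ?_, ?_⟩
  · intro v v' he
    have h1 := hθ v
    have h2 := hθ v'
    rw [← he] at h2
    rcases hy : θ v with w | j
    · rw [hy] at h1 h2
      rcases h1 with ⟨u, hu, i, h3, h4⟩ | ⟨rfl, h3⟩
      · rcases h2 with ⟨u', hu', i', h5, h6⟩ | ⟨rfl, h5⟩
        · have e1 := L1_uniq_path hdis hu hu' (L1_mem h4) (L1_mem h6)
          subst e1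
          have e2 := L1_idx (hP' u hu).2.1 h4 h6
          have e3 : i = i' := by omega
          subst e3
          exact Option.some_injective _ (h3.symm.trans h5)
        · exact absurd (L1_mem h4) (h5 u hu)
      · rcases h2 with ⟨u', hu', i', h5, h6⟩ | ⟨h5, -⟩
        · exact absurd (L1_mem h6) (h3 u' hu')
        · exact h5
    · rw [hy] at h1 h2
      obtain ⟨u, hu, h3, i, h4, h5⟩ := h1
      obtain ⟨u', hu', h3', i', h4', h5'⟩ := h2
      have e1 : (⟨u, hu⟩ : I) = ⟨u', hu'⟩ := I.equivFin.injective (h3.trans h3'.symm)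
      have e2 : u = u' := congrArg Subtype.val e1
      subst e2
      exact L1_last h4 h5 h4' h5'
  · intro v u he
    have h1 := hθ v
    rw [he] at h1
    rcases h1 with ⟨x, hx, i, h3, h4⟩ | ⟨rfl, -⟩
    · right
      obtain ⟨hi, e1⟩ := List.getElem?_eq_some_iff.1 h3
      obtain ⟨hj, e2⟩ := List.getElem?_eq_some_iff.1 h4
      have h5 := List.isChain_iff_getElem.1 (hP' x hx).2.2.1 i hj
      rw [e1, e2] at h5
      exact h5
    · exact Or.inl rfl
  · intro v j he
    have h1 := hθ v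
    rw [he] at h1
    obtain ⟨u, hu, -, i, h4, h5⟩ := h1
    obtain ⟨t, ht, h6⟩ := (hP' u hu).2.2.2
    have h7 : v = t := by
      rw [List.getLast?_eq_getElem?] at h6
      obtain ⟨hi, e1⟩ := List.getElem?_eq_some_iff.1 h4
      have h3 := List.getElem?_eq_none_iff.1 h5
      have e2 : (P u).length - 1 = i := by omega
      rw [e2, h4] at h6
      exact Option.some_injective _ h6
    rw [h7]
    exact ht
  · intro v hv u he
    have h1 := hθ u
    rw [he] at h1
    have h2 : (P v)[0]? = some v := by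
      rw [← List.head?_eq_getElem?]
      exact (hP' v hv).1
    rcases h1 with ⟨x, hx, i, h3, h4⟩ | ⟨rfl, h3⟩
    · have e1 := L1_uniq_path hdis hx hv (L1_mem h4) (L1_mem h2)
      subst e1
      have e2 := L1_idx (hP' x hx).2.1 h4 h2
      omega
    · exact h3 v hv (L1_mem h2)

end Helper20.CY
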