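import Pool.Agent.Helper20.CY.Defs

/-!
Block L2: a matching gives disjoint paths.
-/

namespace Helper20.CY

section L2

variable {V J : Type*}

/-- The list of the vertices met from `v` with at most `n` steps. -/
def L2_run (θ : V → V ⊕ J) : ℕ → V → List V
  | 0, v => [v]
  | n + 1, v => match θ v with
    | Sum.inl u => v :: L2_run θ n u
    | Sum.inr _ => [v]

lemma L2_run_head (θ : V → V ⊕ J) (n : ℕ) (v : V) : (L2_run θ n v).head? = some v := by
  cases n with
  | zero => rfl
  | succ n =>
    simp only [L2_run]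
    cases θ v <;> rfl

lemma L2_run_zero? (θ : V → V ⊕ J) (n : ℕ) (v : V) : (L2_run θ n v)[0]? = some v := by
  rw [← List.head?_eq_getElem?]
  exact L2_run_head θ n v

lemma L2_run_inl {θ : V → V ⊕ J} {n : ℕ} {v u : V} (h : θ v = Sum.inl u) :
    L2_run θ (n + 1) v = v :: L2_run θ n u := by
  simp only [L2_run, h]

lemma L2_run_inr {θ : V → V ⊕ J} {n : ℕ} {v : V} {j : J} (h : θ v = Sum.inr j) :
    L2_run θ (n + 1) v = [v] := by
  simp only [L2_run, h]

/-- The entries after the start are successors. -/
lemma L2_pred {θ : V → V ⊕ J} (n : ℕ) : ∀ (v : V) (i : ℕ) (a : V),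
    (L2_run θ n v)[i + 1]? = some a →
      ∃ p, (L2_run θ n v)[i]? = some p ∧ θ p = Sum.inl a := by
  induction n with
  | zero =>
    intro v i a h
    simp [L2_run] at h
  | succ n ih =>
    intro v i a h
    cases hv : θ v with
    | inl u =>
      rw [L2_run_inl hv] at h ⊢
      rw [List.getElem?_cons_succ] at h
      cases i with
      | zero =>
        rw [L2_run_zero?] at h
        have h1 : u = a := Option.some_injective _ h
        subst h1
        exact ⟨v, rfl, hv⟩
      | succ i =>
        obtain ⟨p, hp, hpa⟩ := ih u i a h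
        exact ⟨p, by rw [List.getElem?_cons_succ]; exact hp, hpa⟩
    | inr j =>
      rw [L2_run_inr hv] at h
      simp at h

lemma L2_last {θ : V → V ⊕ J} (n : ℕ) : ∀ v : V, (L2_run θ n v).length = n + 1 ∨
    ∃ t j, (L2_run θ n v).getLast? = some t ∧ θ t = Sum.inr j := by
  induction n with
  | zero => intro v; left; rfl
  | succ n ih =>
    intro v
    cases hv : θ v with
    | inl u =>
      rw [L2_run_inl hv]
      rcases ih u with h | ⟨t, j, h, hj⟩
      · left; rw [List.length_cons, h]
      · right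
        refine ⟨t, j, ?_, hj⟩
        rw [List.getLast?_cons, h]
        rfl
    | inr j =>
      rw [L2_run_inr hv]
      right
      exact ⟨v, j, rfl, hv⟩

lemma L2_key {θ : V → V ⊕ J} (hinj : Function.Injective θ) {v v' : V}
    (hv : ∀ u, θ u ≠ Sum.inl v) (hv' : ∀ u, θ u ≠ Sum.inl v') (n m : ℕ) :
    ∀ (i j : ℕ) (a : V), (L2_run θ n v)[i]? = some a → (L2_run θ m v')[j]? = some a →
      i = j ∧ v = v' := by
  intro i
  induction i with
  | zero =>
    intro j a h h'
    rw [L2_run_zero?] at h
    have h1 : v = a := Option.some_injective _ h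
    subst h1
    cases j with
    | zero =>
      rw [L2_run_zero?] at h'
      exact ⟨rfl, (Option.some_injective _ h').symm⟩
    | succ j =>
      obtain ⟨p, -, hp⟩ := L2_pred m v' j v h'
      exact absurd hp (hv p)
  | succ i ih =>
    intro j a h h'
    obtain ⟨p, hp, hpa⟩ := L2_pred n v i a h
    cases j with
    | zero =>
      rw [L2_run_zero?] at h'
      have h1 : v' = a := Option.some_injective _ h'
      subst h1
      exact absurd hpa (hv' p)
    | succ j =>
      obtain ⟨p', hp', hpa'⟩ := L2_pred m v' j a h'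
      have h1 : p = p' := hinj (hpa.trans hpa'.symm)
      subst h1
      obtain ⟨h2, h3⟩ := ih j p hp hp'
      exact ⟨by omega, h3⟩

lemma L2_nodup {θ : V → V ⊕ J} (hinj : Function.Injective θ) {v : V}
    (hv : ∀ u, θ u ≠ Sum.inl v) (n : ℕ) : (L2_run θ n v).Nodup := by
  rw [List.nodup_iff_injective_getElem]
  intro i j hij
  have h1 : (L2_run θ n v)[i.1]? = some (L2_run θ n v)[i.1] := List.getElem?_eq_getElem i.2
  have h2 : (L2_run θ n v)[j.1]? = some (L2_run θ n v)[j.1] := List.getElem?_eq_getElem j.2
  have h3 : (L2_run θ n v)[i.1] = (L2_run θ n v)[j.1] := hij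
  rw [← h3] at h2
  exact Fin.ext (L2_key hinj hv hv n n i.1 j.1 _ h1 h2).1

end L2

/-- BLOCK L2. -/
theorem linked_of_match {V J : Type*} [Finite V] {arc : V → V → Prop} {T : Set V}
    {I : Set V} (θ : V → V ⊕ J) (hinj : Function.Injective θ)
    (h1 : ∀ v u, θ v = Sum.inl u → u = v ∨ arc v u) (h2 : ∀ v j, θ v = Sum.inr j → v ∈ T)
    (h3 : ∀ v ∈ I, ∀ u, θ u ≠ Sum.inl v) : Linked arc T I := by
  classical
  have := Fintype.ofFinite V
  refine ⟨fun v => L2_run θ (Fintype.card V) v, ?_, ?_⟩
  · intro v hv
    refine ⟨L2_run_head θ _ v, L2_nodup hinj (h3 v hv) _, ?_, ?_⟩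
    · rw [List.isChain_iff_getElem]
      intro i hi
      change i + 1 < (L2_run θ (Fintype.card V) v).length at hi
      have e1 : (L2_run θ (Fintype.card V) v)[i]? =
          some (L2_run θ (Fintype.card V) v)[i] := List.getElem?_eq_getElem (by omega)
      have e2 : (L2_run θ (Fintype.card V) v)[i + 1]? =
          some (L2_run θ (Fintype.card V) v)[i + 1] := List.getElem?_eq_getElem hi
      obtain ⟨p, hp, hpa⟩ := L2_pred _ v i _ e2
      rw [e1] at hp
      have hp' := Option.some_injective _ hp
      rw [← hp'] at hpa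
      rcases h1 _ _ hpa with h | h
      · rw [h] at e2
        have := (L2_key hinj (h3 v hv) (h3 v hv) _ _ _ _ _ e1 e2).1
        omega
      · exact h
    · rcases L2_last (θ := θ) (Fintype.card V) v with h | ⟨t, j, h, hj⟩
      · exfalso
        have := (L2_nodup hinj (h3 v hv) (Fintype.card V)).length_le_card
        omega
      · exact ⟨t, h2 t j hj, h⟩
  · intro u hu v hv huv a hau hav
    obtain ⟨i, hi⟩ := List.mem_iff_getElem?.1 hau
    obtain ⟨j, hj⟩ := List.mem_iff_getElem?.1 hav
    exact huv (L2_key hinj (h3 u hu) (h3 v hv) _ _ i j a hi hj).2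

end Helper20.CY
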