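import Pool.Agent.Helper20.CY.G
import Pool.Agent.Helper20.CY.C
import Pool.Agent.Helper20.CY.L1
import Pool.Agent.Helper20.CY.L2

/-!
Assembly: the cyclic ordering conjecture for gammoids.
-/

namespace Helper20.CY

open Finset

/-- The window criterion, with an ordering indexed by `ℕ`. -/
theorem final_nat {α : Type*} (M : Matroid α) (hM : IsGammoid M) (hfin : M.E.Finite)
    (k r : ℕ) (hk : 0 < k) (hr : 0 < r) (B : Fin k → Set α) (hB : ∀ i, M.IsBase (B i))
    (hBr : ∀ i, (B i).ncard = r)
    (hdisj : ∀ i j, i ≠ j → Disjoint (B i) (B j)) (hcov : ⋃ i, B i = M.E)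
    (hn : M.E.ncard = k * r) :
    ∃ σ : ℕ → α, (∀ i, σ (i + k * r) = σ i) ∧ Set.BijOn σ (Set.Iio (k * r)) M.E ∧
      ∀ p, M.IsBase (σ '' Set.Ico p (p + r)) := by
  classical
  obtain ⟨V, hV, arc, T, f, hf, hind⟩ := hM
  have : Fintype V := Fintype.ofFinite V
  have hBE : ∀ i, B i ⊆ M.E := fun i => (hB i).subset_ground
  have hBfin : ∀ i, (B i).Finite := fun i => hfin.subset (hBE i)
  -- the linked sets
  set I : Fin k → Finset V := fun a => (hBfin a).toFinset.image f with hI
  have hIcoe : ∀ a, ((I a : Finset V) : Set V) = f '' B a := by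
    intro a; simp [hI]
  have hIcard : ∀ a, (I a).card = r := by
    intro a
    have h1 : ((I a : Finset V) : Set V).ncard = (B a).ncard := by
      rw [hIcoe]
      exact (hf.mono (hBE a)).ncard_image
    rw [Set.ncard_coe_finset] at h1
    rw [h1, hBr]
  have hL1 : ∀ a, ∃ θ : V → V ⊕ Fin r, Function.Injective θ ∧
      (∀ v u, θ v = Sum.inl u → u = v ∨ arc v u) ∧ (∀ v j, θ v = Sum.inr j → v ∈ T) ∧
      ∀ v ∈ I a, ∀ u, θ u ≠ Sum.inl v := by
    intro a
    have hlin : Linked arc T ((I a : Finset V) : Set V) := by
      rw [hIcoe]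
      exact (hind _ (hBE a)).1 (hB a).indep
    have := match_of_linked hlin
    rw [hIcard a] at this
    exact this
  choose θ hθinj hθ1 hθ2 hθ3 using hL1
  -- the range of θ a
  have hrange : ∀ a ρ, (∃ x, θ a x = ρ) ↔ ∀ v ∈ I a, ρ ≠ Sum.inl v := by
    intro a
    have hsub : Finset.univ.image (θ a) ⊆ Finset.univ \ (I a).image Sum.inl := by
      intro ρ hρ
      simp only [mem_image, mem_univ, true_and, mem_sdiff, not_exists, not_and] at hρ ⊢
      obtain ⟨x, rfl⟩ := hρ
      intro v hv h
      exact hθ3 a v hv x h.symm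
    have hcard : (Finset.univ \ (I a).image (Sum.inl : V → V ⊕ Fin r)).card ≤
        (Finset.univ.image (θ a)).card := by
      rw [card_sdiff_of_subset (subset_univ _), card_image_of_injective _ (hθinj a),
        card_image_of_injective _ Sum.inl_injective, hIcard a]
      simp [Fintype.card_sum]
    have heq := Finset.eq_of_subset_of_card_le hsub hcard
    intro ρ
    constructor
    · rintro ⟨x, rfl⟩ v hv h
      exact hθ3 a v hv x h
    · intro h
      have : ρ ∈ Finset.univ \ (I a).image (Sum.inl : V → V ⊕ Fin r) := by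
        simp only [mem_sdiff, mem_univ, true_and, mem_image, not_exists, not_and]
        intro v hv h'
        exact h v hv h'.symm
      rw [← heq] at this
      simpa using this
  set S : Finset α := hfin.toFinset with hS
  have hSmem : ∀ s, s ∈ S ↔ s ∈ M.E := by intro s; simp [hS]
  have hScard : S.card = k * r := by
    rw [← hn, Set.ncard_eq_toFinset_card _ hfin]
  set A : V ⊕ Fin r → Finset α := fun ρ => S.filter (fun s => Sum.inl (f s) = ρ) with hAdef
  set w : V → V ⊕ Fin r → ℚ := fun x ρ => ((Finset.univ.filter (fun a => θ a x = ρ)).card : ℚ)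
    with hwdef
  have hw0 : ∀ x ρ, 0 ≤ w x ρ := fun x ρ => Nat.cast_nonneg _
  have hX : ∀ x ∈ (Finset.univ : Finset V), ∑ ρ ∈ (Finset.univ : Finset (V ⊕ Fin r)), w x ρ = k := by
    intro x _
    simp only [hwdef]
    rw [← Nat.cast_sum]
    congr 1
    have := Finset.card_eq_sum_card_fiberwise (f := fun a => θ a x)
      (s := (Finset.univ : Finset (Fin k))) (t := (Finset.univ : Finset (V ⊕ Fin r)))
      (fun a _ => Finset.mem_coe.2 (mem_univ _))
    rw [Finset.card_univ, Fintype.card_fin] at this
    exact this.symm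
  have hR : ∀ ρ ∈ (Finset.univ : Finset (V ⊕ Fin r)),
      ((A ρ).card : ℚ) + ∑ x ∈ (Finset.univ : Finset V), w x ρ = k * ((fun _ => 1 : V ⊕ Fin r → ℤ) ρ) := by
    intro ρ _
    have h1 : ∑ x ∈ (Finset.univ : Finset V), w x ρ =
        (((Finset.univ : Finset (Fin k)).filter (fun a => ∃ x, θ a x = ρ)).card : ℚ) := by
      simp only [hwdef]
      rw [← Nat.cast_sum]
      congr 1
      -- double counting
      have h2 : ∀ a : Fin k, ((Finset.univ : Finset V).filter (fun x => θ a x = ρ)).card =
          if ∃ x, θ a x = ρ then 1 else 0 := by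
        intro a
        split_ifs with h
        · obtain ⟨x, hx⟩ := h
          rw [Finset.card_eq_one]
          refine ⟨x, ?_⟩
          ext y
          simp only [mem_filter, mem_univ, true_and, mem_singleton]
          constructor
          · intro hy; exact hθinj a (hy.trans hx.symm)
          · rintro rfl; exact hx
        · rw [Finset.card_eq_zero]
          ext y
          simp only [mem_filter, mem_univ, true_and, notMem_empty, iff_false]
          intro hy; exact h ⟨y, hy⟩
      calc ∑ x ∈ (Finset.univ : Finset V), (Finset.univ.filter (fun a => θ a x = ρ)).card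
          = ∑ x ∈ (Finset.univ : Finset V), ∑ a ∈ (Finset.univ : Finset (Fin k)),
              (if θ a x = ρ then 1 else 0) := by
            refine Finset.sum_congr rfl (fun x _ => ?_)
            rw [Finset.card_filter]
        _ = ∑ a ∈ (Finset.univ : Finset (Fin k)), ∑ x ∈ (Finset.univ : Finset V),
              (if θ a x = ρ then 1 else 0) := Finset.sum_comm
        _ = ∑ a ∈ (Finset.univ : Finset (Fin k)), (if ∃ x, θ a x = ρ then 1 else 0) := by
            refine Finset.sum_congr rfl (fun a _ => ?_)
            rw [← Finset.card_filter, h2]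
        _ = _ := by rw [Finset.card_filter]
    rw [h1]
    -- the bases which contain the element above ρ
    have h3 : (A ρ).card + ((Finset.univ : Finset (Fin k)).filter (fun a => ∃ x, θ a x = ρ)).card
        = k := by
      have h4 : (A ρ).card =
          ((Finset.univ : Finset (Fin k)).filter (fun a => ¬ ∃ x, θ a x = ρ)).card := by
        have h5 : ∀ a, (¬ ∃ x, θ a x = ρ) ↔ ∃ s ∈ B a, Sum.inl (f s) = ρ := by
          intro a
          rw [hrange a ρ]
          push Not
          constructor
          · rintro ⟨v, hv, rfl⟩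
            have : v ∈ f '' B a := by rw [← hIcoe]; exact hv
            obtain ⟨s, hs, rfl⟩ := this
            exact ⟨s, hs, rfl⟩
          · rintro ⟨s, hs, rfl⟩
            refine ⟨f s, ?_, rfl⟩
            have : f s ∈ ((I a : Finset V) : Set V) := by
              rw [hIcoe]; exact ⟨s, hs, rfl⟩
            exact this
        by_cases hex : ∃ s ∈ M.E, Sum.inl (f s) = ρ
        · obtain ⟨s, hs, hsρ⟩ := hex
          have hA1 : A ρ = {s} := by
            ext t
            simp only [hAdef, mem_filter, hSmem, mem_singleton]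
            constructor
            · rintro ⟨ht, htρ⟩
              exact hf ht hs (Sum.inl_injective (htρ.trans hsρ.symm))
            · rintro rfl; exact ⟨hs, hsρ⟩
          obtain ⟨a, ha⟩ : ∃ a, s ∈ B a := by
            rw [← hcov] at hs
            simpa using hs
          have hA2 : ((Finset.univ : Finset (Fin k)).filter (fun a => ¬ ∃ x, θ a x = ρ)) = {a} := by
            ext b
            simp only [mem_filter, mem_univ, true_and, mem_singleton]
            rw [h5 b]
            constructor
            · rintro ⟨t, ht, htρ⟩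
              have hts : t = s := hf (hBE b ht) hs (Sum.inl_injective (htρ.trans hsρ.symm))
              by_contra hne
              exact Set.disjoint_left.1 (hdisj b a hne) ht (hts ▸ ha)
            · rintro rfl
              exact ⟨s, ha, hsρ⟩
          rw [hA1, hA2]; simp
        · have hA1 : A ρ = ∅ := by
            ext t
            simp only [hAdef, mem_filter, hSmem, notMem_empty, iff_false, not_and]
            intro ht h
            exact hex ⟨t, ht, h⟩
          have hA2 : ((Finset.univ : Finset (Fin k)).filter (fun a => ¬ ∃ x, θ a x = ρ)) = ∅ := by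
            ext b
            simp only [mem_filter, mem_univ, true_and, notMem_empty, iff_false]
            rw [h5 b]
            rintro ⟨t, ht, htρ⟩
            exact hex ⟨t, hBE b ht, htρ⟩
          rw [hA1, hA2]; rfl
      rw [h4, add_comm]
      have := Finset.card_filter_add_card_filter_not
        (s := (Finset.univ : Finset (Fin k))) (fun a => ∃ x, θ a x = ρ)
      rw [this, Finset.card_univ, Fintype.card_fin]
    rw [← Nat.cast_add, h3]
    simp
  have hAd : ∀ ρ ∈ (Finset.univ : Finset (V ⊕ Fin r)), ∀ ρ' ∈ (Finset.univ : Finset (V ⊕ Fin r)),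
      ρ ≠ ρ' → Disjoint (A ρ) (A ρ') := by
    intro ρ _ ρ' _ hne
    rw [Finset.disjoint_left]
    intro t ht ht'
    simp only [hAdef, mem_filter] at ht ht'
    exact hne (ht.2.symm.trans ht'.2)
  have : Nonempty (V ⊕ Fin r) := ⟨Sum.inr ⟨0, hr⟩⟩
  obtain ⟨L, hLlam, hLsub, hLW⟩ := exists_laminar k hk Finset.univ Finset.univ A (fun _ => 1) w
    hw0 hX hR hAd
  have hLS : ∀ F ∈ L, F ⊆ S := by
    intro F hF
    obtain ⟨Q, _, rfl⟩ := hLsub F hF
    intro t ht
    rw [mem_biUnion] at ht
    obtain ⟨ρ, _, hρ⟩ := ht
    exact (mem_filter.1 hρ).1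
  obtain ⟨σ, hσper, hσbij, hσbal⟩ := laminar_cyclic hk hr S hScard L hLS hLlam
  refine ⟨σ, hσper, ?_, ?_⟩
  · have : (S : Set α) = M.E := by ext s; simp [hSmem]
    rw [← this]; exact hσbij
  · intro p
    set W : Finset α := (Finset.Ico p (p + r)).image σ with hW
    have hWcoe : (W : Set α) = σ '' Set.Ico p (p + r) := by
      rw [hW]; push_cast; rfl
    have hσE : ∀ i, σ i ∈ M.E := by
      intro i
      have h1 : ∀ q i, σ (i + q * (k * r)) = σ i := by
        intro q
        induction q with
        | zero => intro i; simp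
        | succ q ih => intro i; rw [Nat.succ_mul, ← add_assoc, hσper, ih]
      have h2 : σ i = σ (i % (k * r)) := by
        conv_lhs => rw [← Nat.mod_add_div i (k * r), mul_comm (k * r)]
        exact h1 _ _
      rw [h2, ← hSmem]
      exact hσbij.mapsTo (Set.mem_Iio.2 (Nat.mod_lt _ (Nat.mul_pos hk hr)))
    have hWE : (W : Set α) ⊆ M.E := by
      rw [hWcoe]
      rintro _ ⟨i, _, rfl⟩
      exact hσE i
    obtain ⟨-, m, hminj, hm, -⟩ := hLW W (fun ρ _ => by simp)
      (fun F hF => hσbal F hF p)
    have hlink : Linked arc T (f '' (W : Set α)) := by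
      refine linked_of_match m (fun x y h => hminj (by simp) (by simp) h) ?_ ?_ ?_
      · intro v u hvu
        have h1 := (hm v (mem_univ _)).2.1
        simp only [hwdef] at h1
        rw [Nat.cast_pos, Finset.card_pos] at h1
        obtain ⟨a, ha⟩ := h1
        rw [mem_filter] at ha
        exact hθ1 a v u (ha.2.trans hvu)
      · intro v j hvj
        have h1 := (hm v (mem_univ _)).2.1
        simp only [hwdef] at h1
        rw [Nat.cast_pos, Finset.card_pos] at h1
        obtain ⟨a, ha⟩ := h1
        rw [mem_filter] at ha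
        exact hθ2 a v j (ha.2.trans hvj)
      · rintro _ ⟨s, hs, rfl⟩ u hu
        have h1 := (hm u (mem_univ _)).2.2
        have h2 : s ∈ W ∩ A (m u) := by
          rw [mem_inter]
          refine ⟨hs, ?_⟩
          simp only [hAdef, mem_filter]
          exact ⟨(hSmem s).2 (hWE hs), hu.symm⟩
        have h3 : 0 < (W ∩ A (m u)).card := Finset.card_pos.2 ⟨s, h2⟩
        simp only [sub_self] at h1
        omega
    have hWind : M.Indep (W : Set α) := (hind _ hWE).2 hlink
    have hWcard : (W : Set α).ncard = r := by
      rw [Set.ncard_coe_finset, hW, Finset.card_image_of_injOn]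
      · simp
      · intro i hi j hj hij
        simp only [coe_Ico, Set.mem_Ico] at hi hj
        have h1 : ∀ q i, σ (i + q * (k * r)) = σ i := by
          intro q
          induction q with
          | zero => intro i; simp
          | succ q ih => intro i; rw [Nat.succ_mul, ← add_assoc, hσper, ih]
        have h2 : ∀ i, σ i = σ (i % (k * r)) := by
          intro i
          conv_lhs => rw [← Nat.mod_add_div i (k * r), mul_comm (k * r)]
          exact h1 _ _
        have h0 : 0 < k * r := Nat.mul_pos hk hr
        have h3 : i % (k * r) = j % (k * r) := by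
          apply hσbij.injOn (Set.mem_Iio.2 (Nat.mod_lt _ h0)) (Set.mem_Iio.2 (Nat.mod_lt _ h0))
          rw [← h2, ← h2, hij]
        have hkr : r ≤ k * r := Nat.le_mul_of_pos_left r hk
        -- both in an interval of length r ≤ k r
        rcases Nat.le_total i j with h | h
        · have h4 : k * r ∣ j - i := (Nat.modEq_iff_dvd' h).1 h3
          rcases Nat.eq_zero_or_pos (j - i) with h5 | h5
          · omega
          · have := Nat.le_of_dvd h5 h4
            omega
        · have h4 : k * r ∣ i - j := (Nat.modEq_iff_dvd' h).1 h3.symm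
          rcases Nat.eq_zero_or_pos (i - j) with h5 | h5
          · omega
          · have := Nat.le_of_dvd h5 h4
            omega
    rw [← hWcoe]
    -- an independent set with as many elements as a base
    obtain ⟨B', hB', hWB'⟩ := hWind.exists_isBase_superset
    have hB'card : B'.ncard = r := by
      rw [← hBr ⟨0, hk⟩]
      exact hB'.ncard_eq_ncard_of_isBase (hB _)
    have hB'fin : B'.Finite := hfin.subset hB'.subset_ground
    have : (W : Set α) = B' := Set.eq_of_subset_of_ncard_le hWB' (by omega) hB'fin
    rw [this]; exact hB'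

/-- The cyclic ordering conjecture holds for gammoids. -/
theorem gammoid_cyclic {α : Type*} (M : Matroid α) (hM : IsGammoid M) (hfin : M.E.Finite)
    (k : ℕ) (hk : 0 < k) (B : Fin k → Set α) (hB : ∀ i, M.IsBase (B i))
    (hdisj : ∀ i j, i ≠ j → Disjoint (B i) (B j)) (hcov : ⋃ i, B i = M.E) :
    ∃ σ : Fin M.E.ncard ≃ M.E, ∀ i : ℕ,
      M.IsBase {x | ∃ j < M.E.ncard / k, ∃ h : 0 < M.E.ncard,
        x = σ ⟨(i + j) % M.E.ncard, Nat.mod_lt _ h⟩} := by
  classical
  have hBE : ∀ i, B i ⊆ M.E := fun i => (hB i).subset_ground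
  have hBfin : ∀ i, (B i).Finite := fun i => hfin.subset (hBE i)
  set r : ℕ := (B ⟨0, hk⟩).ncard with hr0
  have hBr : ∀ i, (B i).ncard = r := fun i => (hB i).ncard_eq_ncard_of_isBase (hB _)
  have hn : M.E.ncard = k * r := by
    have h1 : (M.E).ncard = ∑ i : Fin k, (B i).ncard := by
      rw [← hcov]
      have h2 : (⋃ i, B i) = ((Finset.univ.biUnion (fun i => (hBfin i).toFinset) : Finset α) : Set α) := by
        ext x; simp
      rw [h2, Set.ncard_coe_finset, Finset.card_biUnion]
      · refine Finset.sum_congr rfl (fun i _ => ?_)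
        rw [Set.ncard_eq_toFinset_card _ (hBfin i)]
      · intro i _ j _ hij
        show Disjoint ((hBfin i).toFinset) ((hBfin j).toFinset)
        rw [Finset.disjoint_left]
        intro x hx hx'
        simp only [Set.Finite.mem_toFinset] at hx hx'
        exact Set.disjoint_left.1 (hdisj i j hij) hx hx'
    rw [h1, Finset.sum_congr rfl (fun i _ => hBr i)]
    simp
  have hdiv : M.E.ncard / k = r := by rw [hn, Nat.mul_div_cancel_left _ hk]
  rcases Nat.eq_zero_or_pos r with hr | hr
  · have hn0 : M.E.ncard = 0 := by rw [hn, hr, mul_zero]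
    have hE : M.E = ∅ := (Set.ncard_eq_zero hfin).1 hn0
    have : IsEmpty (Fin M.E.ncard) := by rw [hn0]; infer_instance
    have : IsEmpty M.E := by rw [hE]; infer_instance
    refine ⟨Equiv.equivOfIsEmpty _ _, fun i => ?_⟩
    have h1 : {x | ∃ j < M.E.ncard / k, ∃ h : 0 < M.E.ncard,
        x = ((Equiv.equivOfIsEmpty (Fin M.E.ncard) M.E)
          ⟨(i + j) % M.E.ncard, Nat.mod_lt _ h⟩ : α)} = ∅ := by
      ext x
      simp only [Set.mem_ofPred_eq, Set.mem_empty_iff_false, iff_false, not_exists, not_and]
      intro j _ h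
      omega
    rw [h1]
    have h2 : B ⟨0, hk⟩ = ∅ := (Set.ncard_eq_zero (hBfin _)).1 (by rw [← hr0, hr])
    rw [← h2]; exact hB _
  · obtain ⟨σ, hper, hbij, hwin⟩ := final_nat M hM hfin k r hk hr B hB hBr hdisj hcov hn
    have h0 : 0 < k * r := Nat.mul_pos hk hr
    have hmod : ∀ i, σ (i % (k * r)) = σ i := by
      have h1 : ∀ q i, σ (i + q * (k * r)) = σ i := by
        intro q
        induction q with
        | zero => intro i; simp
        | succ q ih => intro i; rw [Nat.succ_mul, ← add_assoc, hper, ih]
      intro i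
      conv_rhs => rw [← Nat.mod_add_div i (k * r), mul_comm (k * r)]
      exact (h1 _ _).symm
    have hmem : ∀ i : Fin M.E.ncard, σ i ∈ M.E := fun i =>
      hbij.mapsTo (Set.mem_Iio.2 (by rw [← hn]; exact i.2))
    have hb : Function.Bijective (fun i : Fin M.E.ncard => (⟨σ i, hmem i⟩ : M.E)) := by
      constructor
      · intro i j hij
        have h1 : σ i = σ j := congrArg Subtype.val hij
        exact Fin.ext (hbij.injOn (Set.mem_Iio.2 (by rw [← hn]; exact i.2))
          (Set.mem_Iio.2 (by rw [← hn]; exact j.2)) h1)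
      · rintro ⟨x, hx⟩
        obtain ⟨i, hi, rfl⟩ := hbij.surjOn hx
        exact ⟨⟨i, by rw [hn]; exact hi⟩, rfl⟩
    refine ⟨Equiv.ofBijective _ hb, fun i => ?_⟩
    have h1 : {x | ∃ j < M.E.ncard / k, ∃ h : 0 < M.E.ncard,
        x = ((Equiv.ofBijective _ hb) ⟨(i + j) % M.E.ncard, Nat.mod_lt _ h⟩ : α)} =
        σ '' Set.Ico i (i + r) := by
      ext x
      simp only [Set.mem_ofPred_eq, Equiv.ofBijective_apply, Set.mem_image, Set.mem_Ico]
      constructor
      · rintro ⟨j, hj, h, rfl⟩
        refine ⟨i + j, ⟨by omega, by rw [hdiv] at hj; omega⟩, ?_⟩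
        rw [← hmod (i + j), hn]
      · rintro ⟨l, ⟨hl1, hl2⟩, rfl⟩
        refine ⟨l - i, by rw [hdiv]; omega, by rw [hn]; exact h0, ?_⟩
        have : i + (l - i) = l := by omega
        rw [this, ← hmod l, hn]
    rw [h1]
    exact hwin i

end Helper20.CY
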