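import Pool.Agent.Helper20.CY.Defs

/-!
Block G: a laminar family of subsets of a set of `k r` elements can be arranged on a cycle such
that all windows of length `r` are balanced on all members of the family.
-/

namespace Helper20.CY

section G

variable {k : ℕ}

/-- Staircase. -/
def G_St (x : ZMod k) (g : ℕ) (γ : ℕ → ℕ) : Finset (ZMod k × ℕ) :=
  (Finset.range g).image (fun i : ℕ => (x + (i : ZMod k), γ i))

lemma G_mem_St {x : ZMod k} {g : ℕ} {γ : ℕ → ℕ} {q : ZMod k × ℕ} :
    q ∈ G_St x g γ ↔ ∃ i < g, x + (i : ZMod k) = q.1 ∧ γ i = q.2 := by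
  simp only [G_St, Finset.mem_image, Finset.mem_range, Prod.ext_iff]

lemma G_cast_inj {i j : ℕ} (hi : i < k) (hj : j < k) (h : (i : ZMod k) = (j : ZMod k)) :
    i = j := by
  have h1 := (ZMod.natCast_eq_natCast_iff' i j k).1 h
  rwa [Nat.mod_eq_of_lt hi, Nat.mod_eq_of_lt hj] at h1

variable [NeZero k]

/-- Full columns and a staircase. -/
def G_Cell (U : Finset ℕ) (x : ZMod k) (g : ℕ) (γ : ℕ → ℕ) : Finset (ZMod k × ℕ) :=
  Finset.univ ×ˢ U ∪ G_St x g γ

/-- Nice sets of positions. -/
def G_Nice (C : Finset (ZMod k × ℕ)) : Prop :=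
  ∃ (U : Finset ℕ) (x : ZMod k) (g : ℕ) (γ : ℕ → ℕ), g < k ∧ (∀ i < g, γ i ∉ U) ∧
    (∀ i j, i ≤ j → j < g → γ i ≤ γ j) ∧ C = G_Cell U x g γ

lemma G_mem_Cell {U : Finset ℕ} {x : ZMod k} {g : ℕ} {γ : ℕ → ℕ} {q : ZMod k × ℕ} :
    q ∈ G_Cell U x g γ ↔ q.2 ∈ U ∨ ∃ i < g, x + (i : ZMod k) = q.1 ∧ γ i = q.2 := by
  rw [G_Cell, Finset.mem_union, G_mem_St, Finset.mem_product]
  simp

lemma G_card_Cell {U : Finset ℕ} {x : ZMod k} {g : ℕ} {γ : ℕ → ℕ} (hg : g < k)
    (h : ∀ i < g, γ i ∉ U) : (G_Cell U x g γ).card = k * U.card + g := by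
  rw [G_Cell, Finset.card_union_of_disjoint, Finset.card_product, Finset.card_univ, ZMod.card,
    G_St, Finset.card_image_of_injOn, Finset.card_range]
  · intro i hi j hj hij
    have h1 : (x + (i : ZMod k)) = x + (j : ZMod k) := (Prod.ext_iff.1 hij).1
    have h2 := add_left_cancel h1
    have hi' := Finset.mem_range.1 (Finset.mem_coe.1 hi)
    have hj' := Finset.mem_range.1 (Finset.mem_coe.1 hj)
    exact G_cast_inj (by omega) (by omega) h2
  · rw [Finset.disjoint_left]
    intro q hq hq'
    obtain ⟨i, hi, -, h2⟩ := G_mem_St.1 hq'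
    have h3 := (Finset.mem_product.1 hq).2
    rw [← h2] at h3
    exact h i hi h3

/-- Number of elements of a nice set on a graph over the columns. -/
lemma G_count {r : ℕ} {C : Finset (ZMod k × ℕ)} (hC : G_Nice C)
    (hr : ∀ q ∈ C, q.2 < r) (a : ZMod k) (b : ℕ) :
    C.card < k * ((Finset.range r).filter
        (fun c => ((if b ≤ c then a else a + 1), c) ∈ C)).card + k ∧
      k * ((Finset.range r).filter
        (fun c => ((if b ≤ c then a else a + 1), c) ∈ C)).card < C.card + k := by
  classical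
  obtain ⟨U, x, g, γ, hg, hU, hmono, rfl⟩ := hC
  rw [G_card_Cell hg hU]
  set N := ((Finset.range r).filter
        (fun c => ((if b ≤ c then a else a + 1), c) ∈ G_Cell U x g γ)) with hN
  have hUN : U ⊆ N := by
    intro c hc
    rw [hN, Finset.mem_filter, Finset.mem_range]
    have h1 : ((0 : ZMod k), c) ∈ G_Cell U x g γ := G_mem_Cell.2 (Or.inl hc)
    exact ⟨hr _ h1, G_mem_Cell.2 (Or.inl hc)⟩
  have h2 : (N \ U).card ≤ 1 ∧ (g = 0 → (N \ U).card = 0) := by
    have key : ∀ c ∈ N \ U, ∃ i < g, x + (i : ZMod k) = (if b ≤ c then a else a + 1) ∧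
        γ i = c := by
      intro c hc
      rw [Finset.mem_sdiff, hN, Finset.mem_filter] at hc
      rcases G_mem_Cell.1 hc.1.2 with h | h
      · exact absurd h hc.2
      · exact h
    constructor
    · rw [Finset.card_le_one]
      -- two elements c < c'
      have key2 : ∀ c ∈ N \ U, ∀ c' ∈ N \ U, ¬ c < c' := by
        intro c hc c' hc' hlt
        obtain ⟨i, hi, h1, h2⟩ := key c hc
        obtain ⟨j, hj, h3, h4⟩ := key c' hc'
        have hij : i < j := by
          by_contra hcon
          have := hmono j i (by omega) hi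
          omega
        by_cases hb : b ≤ c
        · rw [if_pos hb] at h1
          rw [if_pos (by omega)] at h3
          have h5 := add_left_cancel (h1.trans h3.symm)
          have := G_cast_inj (by omega) (by omega) h5
          omega
        · rw [if_neg hb] at h1
          by_cases hb' : b ≤ c'
          · rw [if_pos hb'] at h3
            -- x + i = a + 1, x + j = a
            have h5 : ((i : ℕ) : ZMod k) = ((j + 1 : ℕ) : ZMod k) := by
              push_cast
              have : x + (i : ZMod k) = x + ((j : ZMod k) + 1) := by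
                rw [h1, ← add_assoc, h3]
              exact add_left_cancel this
            rcases Nat.lt_or_ge (j + 1) k with h6 | h6
            · have := G_cast_inj (by omega) h6 h5
              omega
            · omega
          · rw [if_neg hb'] at h3
            have h5 := add_left_cancel (h1.trans h3.symm)
            have := G_cast_inj (by omega) (by omega) h5
            omega
      intro c hc c' hc'
      rcases lt_trichotomy c c' with h | h | h
      · exact absurd h (key2 c hc c' hc')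
      · exact h
      · exact absurd h (key2 c' hc' c hc)
    · intro h0
      rw [Finset.card_eq_zero, Finset.eq_empty_iff_forall_notMem]
      intro c hc
      obtain ⟨i, hi, -⟩ := key c hc
      omega
  have h3 : N.card = U.card + (N \ U).card := by
    rw [Finset.card_sdiff_of_subset hUN]
    have := Finset.card_le_card hUN
    omega
  have hk : 0 < k := Nat.pos_of_ne_zero (NeZero.ne k)
  rw [h3, Nat.mul_add]
  generalize hz : (N \ U).card = z at h2
  obtain ⟨hz1, hz2⟩ := h2
  have h4 : z = 0 ∨ z = 1 := by omega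
  rcases h4 with rfl | rfl
  · constructor <;> omega
  · have : g ≠ 0 := fun h => by have := hz2 h; omega
    constructor <;> omega

/-- Splitting of nice sets. -/
lemma G_split {C : Finset (ZMod k × ℕ)} (hC : G_Nice C) (n₁ n₂ : ℕ)
    (hn : C.card = n₁ + n₂) : ∃ C₁ C₂ : Finset (ZMod k × ℕ), G_Nice C₁ ∧ G_Nice C₂ ∧
      C₁.card = n₁ ∧ C₂.card = n₂ ∧ Disjoint C₁ C₂ ∧ C₁ ∪ C₂ = C := by
  classical
  obtain ⟨U, x, g, γ, hg, hU, hmono, rfl⟩ := hC
  have hk : 0 < k := Nat.pos_of_ne_zero (NeZero.ne k)
  have hcard := G_card_Cell (x := x) hg hU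
  -- it is enough to cover
  suffices H : ∃ C₁ C₂ : Finset (ZMod k × ℕ), G_Nice C₁ ∧ G_Nice C₂ ∧
      C₁.card = n₁ ∧ C₂.card = n₂ ∧ G_Cell U x g γ ⊆ C₁ ∪ C₂ by
    obtain ⟨C₁, C₂, h1, h2, h3, h4, h5⟩ := H
    have h6 := Finset.card_union_le C₁ C₂
    have h7 := Finset.card_le_card h5
    have h8 : G_Cell U x g γ = C₁ ∪ C₂ := Finset.eq_of_subset_of_card_le h5 (by omega)
    refine ⟨C₁, C₂, h1, h2, h3, h4, ?_, h8.symm⟩
    rw [← Finset.card_union_eq_card_add_card]
    omega
  have e1 := Nat.div_add_mod n₁ k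
  have e2 := Nat.div_add_mod n₂ k
  have l1 := Nat.mod_lt n₁ hk
  have l2 := Nat.mod_lt n₂ hk
  generalize hm1 : n₁ / k = m₁ at e1
  generalize hg1 : n₁ % k = g₁ at e1 l1
  generalize hm2 : n₂ / k = m₂ at e2
  generalize hg2 : n₂ % k = g₂ at e2 l2
  rcases Nat.lt_or_ge (g₁ + g₂) k with hlt | hge
  · -- no carry
    have e3 : k * U.card + g = k * (m₁ + m₂) + (g₁ + g₂) := by
      rw [Nat.mul_add]; omega
    have e4 : U.card = m₁ + m₂ := by
      have h1 : (k * U.card + g) / k = U.card := by
        rw [Nat.mul_add_div hk, Nat.div_eq_of_lt hg, Nat.add_zero]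
      rw [e3, Nat.mul_add_div hk, Nat.div_eq_of_lt hlt, Nat.add_zero] at h1
      exact h1.symm
    have e5 : g = g₁ + g₂ := by
      rw [e4] at e3; omega
    obtain ⟨U₁, hU₁, hU₁c⟩ := Finset.exists_subset_card_eq (show m₁ ≤ U.card by omega)
    have hU₂c : (U \ U₁).card = m₂ := by
      rw [Finset.card_sdiff_of_subset hU₁]; omega
    refine ⟨G_Cell U₁ x g₁ γ, G_Cell (U \ U₁) (x + (g₁ : ZMod k)) g₂ (fun i => γ (i + g₁)),
      ⟨U₁, x, g₁, γ, l1, fun i hi h => hU i (by omega) (hU₁ h),
        fun i j hij hj => hmono i j hij (by omega), rfl⟩,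
      ⟨U \ U₁, x + (g₁ : ZMod k), g₂, (fun i => γ (i + g₁)), l2,
        fun i hi h => hU (i + g₁) (by omega) (Finset.sdiff_subset h),
        fun i j hij hj => hmono _ _ (by omega) (by omega), rfl⟩, ?_, ?_, ?_⟩
    · rw [G_card_Cell l1 (fun i hi h => hU i (by omega) (hU₁ h)), hU₁c]
      exact e1
    · rw [G_card_Cell l2 (fun i hi h => hU (i + g₁) (by omega) (Finset.sdiff_subset h)), hU₂c]
      exact e2
    · intro q hq
      rw [Finset.mem_union, G_mem_Cell, G_mem_Cell]
      rcases G_mem_Cell.1 hq with h | ⟨i, hi, h1, h2⟩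
      · by_cases hq1 : q.2 ∈ U₁
        · exact Or.inl (Or.inl hq1)
        · exact Or.inr (Or.inl (Finset.mem_sdiff.2 ⟨h, hq1⟩))
      · rcases Nat.lt_or_ge i g₁ with hi1 | hi1
        · exact Or.inl (Or.inr ⟨i, hi1, h1, h2⟩)
        · refine Or.inr (Or.inr ⟨i - g₁, by omega, ?_, ?_⟩)
          · rw [← h1, Nat.cast_sub hi1]; ring
          · show γ (i - g₁ + g₁) = q.2
            rw [Nat.sub_add_cancel hi1]; exact h2
  · -- carry
    obtain ⟨t, ht⟩ := Nat.exists_eq_add_of_le hge
    have e3 : k * U.card + g = k * (m₁ + m₂ + 1) + t := by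
      rw [Nat.mul_add, Nat.mul_add]; omega
    have htk : t < k := by omega
    have e4 : U.card = m₁ + m₂ + 1 := by
      have h1 : (k * U.card + g) / k = U.card := by
        rw [Nat.mul_add_div hk, Nat.div_eq_of_lt hg, Nat.add_zero]
      rw [e3, Nat.mul_add_div hk, Nat.div_eq_of_lt htk, Nat.add_zero] at h1
      exact h1.symm
    have e5 : g = t := by
      rw [e4] at e3; omega
    subst e5
    obtain ⟨u, hu⟩ : U.Nonempty := Finset.card_pos.1 (by omega)
    have hUe : (U.erase u).card = m₁ + m₂ := by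
      rw [Finset.card_erase_of_mem hu]; omega
    obtain ⟨U₁, hU₁, hU₁c⟩ := Finset.exists_subset_card_eq (show m₁ ≤ (U.erase u).card by omega)
    have hU₂c : ((U.erase u) \ U₁).card = m₂ := by
      rw [Finset.card_sdiff_of_subset hU₁]; omega
    have hU₁U : U₁ ⊆ U := fun c hc => Finset.mem_of_mem_erase (hU₁ hc)
    have huU₁ : u ∉ U₁ := fun h => (Finset.ne_of_mem_erase (hU₁ h)) rfl
    have hU₂U : (U.erase u) \ U₁ ⊆ U := fun c hc =>
      Finset.mem_of_mem_erase (Finset.mem_sdiff.1 hc).1
    have huU₂ : u ∉ (U.erase u) \ U₁ := fun h =>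
      (Finset.ne_of_mem_erase (Finset.mem_sdiff.1 h).1) rfl
    -- the threshold
    obtain ⟨b, hbg, hb1, hb2⟩ : ∃ b ≤ g, (∀ i < b, γ i < u) ∧ ∀ i, b ≤ i → i < g → u ≤ γ i := by
      by_cases h : ∃ i < g, u ≤ γ i
      · refine ⟨Nat.find h, ?_, ?_, ?_⟩
        · exact (Nat.find_spec h).1.le
        · intro i hi
          have h1 := Nat.find_min h hi
          by_contra hcon
          exact h1 ⟨by have := (Nat.find_spec h).1; omega, by omega⟩
        · intro i hi hig
          exact (Nat.find_spec h).2.trans (hmono _ _ hi hig)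
      · push Not at h
        exact ⟨g, le_rfl, h, fun i hi hig => by omega⟩
    have nu1 : ∀ i < g₁, (fun i => if i < b then γ i else u) i ∉ U₁ := by
      intro i hi
      show (if i < b then γ i else u) ∉ U₁
      split_ifs with hib
      · exact fun h => hU i (by omega) (hU₁U h)
      · exact huU₁
    have nu2 : ∀ i < g₂, (fun j => if j + g < b + g₂ then u else γ (j + g - g₂)) i ∉
        (U.erase u) \ U₁ := by
      intro i hi
      show (if i + g < b + g₂ then u else γ (i + g - g₂)) ∉ (U.erase u) \ U₁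
      split_ifs with hib
      · exact huU₂
      · exact fun h => hU (i + g - g₂) (by omega) (hU₂U h)
    refine ⟨G_Cell U₁ x g₁ (fun i => if i < b then γ i else u),
      G_Cell ((U.erase u) \ U₁) (x + (g : ZMod k) - (g₂ : ZMod k)) g₂
        (fun j => if j + g < b + g₂ then u else γ (j + g - g₂)),
      ⟨U₁, x, g₁, (fun i => if i < b then γ i else u), l1, nu1, ?_, rfl⟩,
      ⟨(U.erase u) \ U₁, x + (g : ZMod k) - (g₂ : ZMod k), g₂,
        (fun j => if j + g < b + g₂ then u else γ (j + g - g₂)), l2, nu2, ?_, rfl⟩, ?_, ?_, ?_⟩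
    · intro i j hij hj
      show (if i < b then γ i else u) ≤ (if j < b then γ j else u)
      split_ifs with h1 h2 h2
      · exact hmono i j hij (by omega)
      · exact (hb1 i h1).le
      · omega
      · exact le_rfl
    · intro i j hij hj
      show (if i + g < b + g₂ then u else γ (i + g - g₂)) ≤
        (if j + g < b + g₂ then u else γ (j + g - g₂))
      split_ifs with h1 h2 h2
      · exact le_rfl
      · exact hb2 _ (by omega) (by omega)
      · omega
      · exact hmono _ _ (by omega) (by omega)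
    · rw [G_card_Cell l1 nu1, hU₁c]
      exact e1
    · rw [G_card_Cell l2 nu2, hU₂c]
      exact e2
    · intro q hq
      rw [Finset.mem_union, G_mem_Cell, G_mem_Cell]
      rcases G_mem_Cell.1 hq with h | ⟨i, hi, h1, h2⟩
      · by_cases hqu : q.2 = u
        · obtain ⟨i, hik, hi⟩ : ∃ i < k, x + (i : ZMod k) = q.1 := by
            refine ⟨(q.1 - x).val, ZMod.val_lt _, ?_⟩
            rw [ZMod.natCast_zmod_val]; ring
          by_cases hib : i < b
          · right; right
            refine ⟨i + g₂ - g, by omega, ?_, ?_⟩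
            · rw [← hi, Nat.cast_sub (by omega), Nat.cast_add]; ring
            · show (if i + g₂ - g + g < b + g₂ then u else γ (i + g₂ - g + g - g₂)) = q.2
              rw [if_pos (by omega)]; exact hqu.symm
          · by_cases hig : i < g₁
            · left; right
              refine ⟨i, hig, hi, ?_⟩
              show (if i < b then γ i else u) = q.2
              rw [if_neg hib]; exact hqu.symm
            · right; right
              refine ⟨i + g₂ - g - k, by omega, ?_, ?_⟩
              · rw [← hi, Nat.cast_sub (by omega), Nat.cast_sub (by omega), Nat.cast_add,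
                  ZMod.natCast_self]
                ring
              · show (if i + g₂ - g - k + g < b + g₂ then u
                    else γ (i + g₂ - g - k + g - g₂)) = q.2
                rw [if_pos (by omega)]; exact hqu.symm
        · by_cases hq1 : q.2 ∈ U₁
          · exact Or.inl (Or.inl hq1)
          · exact Or.inr (Or.inl (Finset.mem_sdiff.2 ⟨Finset.mem_erase.2 ⟨hqu, h⟩, hq1⟩))
      · by_cases hib : i < b
        · left; right
          refine ⟨i, by omega, h1, ?_⟩
          show (if i < b then γ i else u) = q.2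
          rw [if_pos hib]; exact h2
        · right; right
          refine ⟨i + g₂ - g, by omega, ?_, ?_⟩
          · rw [← h1, Nat.cast_sub (by omega), Nat.cast_add]; ring
          · show (if i + g₂ - g + g < b + g₂ then u else γ (i + g₂ - g + g - g₂)) = q.2
            rw [if_neg (by omega), show i + g₂ - g + g - g₂ = i by omega]
            exact h2

lemma G_nice_empty : G_Nice (∅ : Finset (ZMod k × ℕ)) := by
  have hk : 0 < k := Nat.pos_of_ne_zero (NeZero.ne k)
  refine ⟨∅, 0, 0, fun _ => 0, hk, by simp, fun i j _ hj => absurd hj (by omega), ?_⟩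
  ext q
  rw [G_mem_Cell]
  simp

/-- Arrangement of a laminar family on a nice set of positions. -/
lemma G_arrange {α : Type*} [DecidableEq α] [Nonempty α] (n : ℕ) :
    ∀ (S : Finset α) (C : Finset (ZMod k × ℕ)), S.card = n → G_Nice C → C.card = n →
      ∀ L : Set (Finset α), (∀ F ∈ L, F ⊆ S) → Laminar L →
        ∃ ψ : ZMod k × ℕ → α, Set.BijOn ψ ↑C ↑S ∧
          ∀ F ∈ L, G_Nice (C.filter (fun q => ψ q ∈ F)) := by
  classical
  induction n using Nat.strong_induction_on with
  | _ n ih =>
    intro S C hS hC hCn L hL hlam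
    by_cases h : ∃ F ∈ L, F.Nonempty ∧ F ≠ S
    · obtain ⟨F₀, hF₀L, hF₀n, hF₀S⟩ := h
      obtain ⟨F, hF, hmax⟩ := (S.powerset.filter
        (fun F => F ∈ L ∧ F.Nonempty ∧ F ≠ S)).exists_max_image Finset.card
        ⟨F₀, by rw [Finset.mem_filter, Finset.mem_powerset]; exact ⟨hL _ hF₀L, hF₀L, hF₀n, hF₀S⟩⟩
      rw [Finset.mem_filter, Finset.mem_powerset] at hF
      obtain ⟨hFS, hFL, hFn, hFne⟩ := hF
      have c1 : F.card < n := by
        rw [← hS]; exact Finset.card_lt_card (Finset.ssubset_iff_subset_ne.2 ⟨hFS, hFne⟩)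
      have c0 : 0 < F.card := Finset.card_pos.2 hFn
      have c2 : (S \ F).card = n - F.card := by
        rw [Finset.card_sdiff_of_subset hFS, hS]
      obtain ⟨C₁, C₂, hC₁, hC₂, hc1, hc2, hdisj, hun⟩ := G_split hC F.card (S \ F).card
        (by omega)
      obtain ⟨ψ₁, hb1, hn1⟩ := ih F.card c1 F C₁ rfl hC₁ hc1 {F' | F' ∈ L ∧ F' ⊆ F}
        (fun F' hF' => hF'.2) (fun A hA B hB => hlam A hA.1 B hB.1)
      obtain ⟨ψ₂, hb2, hn2⟩ := ih (S \ F).card (by omega) (S \ F) C₂ rfl hC₂ hc2
        {F' | F' ∈ L ∧ F' ⊆ S \ F} (fun F' hF' => hF'.2)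
        (fun A hA B hB => hlam A hA.1 B hB.1)
      have hmem : ∀ q, q ∈ C ↔ q ∈ C₁ ∨ q ∈ C₂ := fun q => by
        rw [← hun, Finset.mem_union]
      have hdis : ∀ q, q ∈ C₁ → q ∉ C₂ := fun q h1 h2 => Finset.disjoint_left.1 hdisj h1 h2
      have v1 : ∀ q ∈ C₁, ψ₁ q ∈ F := fun q hq => Finset.mem_coe.1 (hb1.mapsTo hq)
      have v2 : ∀ q ∈ C₂, ψ₂ q ∈ S ∧ ψ₂ q ∉ F := fun q hq =>
        Finset.mem_sdiff.1 (Finset.mem_coe.1 (hb2.mapsTo hq))
      refine ⟨fun q => if q ∈ C₁ then ψ₁ q else ψ₂ q, ⟨?_, ?_, ?_⟩, ?_⟩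
      · intro q hq
        show (if q ∈ C₁ then ψ₁ q else ψ₂ q) ∈ (S : Set α)
        by_cases h1 : q ∈ C₁
        · rw [if_pos h1]; exact hFS (v1 q h1)
        · rw [if_neg h1]
          rcases (hmem q).1 (Finset.mem_coe.1 hq) with h2 | h2
          · exact absurd h2 h1
          · exact (v2 q h2).1
      · intro q hq q' hq' he
        have he' : (if q ∈ C₁ then ψ₁ q else ψ₂ q) = (if q' ∈ C₁ then ψ₁ q' else ψ₂ q') := he
        by_cases h1 : q ∈ C₁ <;> by_cases h2 : q' ∈ C₁
        · rw [if_pos h1, if_pos h2] at he'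
          exact hb1.injOn h1 h2 he'
        · rw [if_pos h1, if_neg h2] at he'
          have h3 := ((hmem q').1 (Finset.mem_coe.1 hq')).resolve_left h2
          exact absurd (he' ▸ v1 q h1) (v2 q' h3).2
        · rw [if_neg h1, if_pos h2] at he'
          have h3 := ((hmem q).1 (Finset.mem_coe.1 hq)).resolve_left h1
          exact absurd (he'.symm ▸ v1 q' h2) (v2 q h3).2
        · rw [if_neg h1, if_neg h2] at he'
          exact hb2.injOn (((hmem q).1 (Finset.mem_coe.1 hq)).resolve_left h1)
            (((hmem q').1 (Finset.mem_coe.1 hq')).resolve_left h2) he'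
      · intro s hs
        by_cases hsF : s ∈ F
        · obtain ⟨q, hq, hqs⟩ := hb1.surjOn (Finset.mem_coe.2 hsF)
          refine ⟨q, Finset.mem_coe.2 ((hmem q).2 (Or.inl hq)), ?_⟩
          show (if q ∈ C₁ then ψ₁ q else ψ₂ q) = s
          rw [if_pos (Finset.mem_coe.1 hq)]; exact hqs
        · obtain ⟨q, hq, hqs⟩ := hb2.surjOn
            (Finset.mem_coe.2 (Finset.mem_sdiff.2 ⟨Finset.mem_coe.1 hs, hsF⟩))
          refine ⟨q, Finset.mem_coe.2 ((hmem q).2 (Or.inr hq)), ?_⟩
          show (if q ∈ C₁ then ψ₁ q else ψ₂ q) = s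
          rw [if_neg (fun h1 => hdis q h1 hq)]; exact hqs
      · -- niceness
        have hsub : ∀ F' ∈ L, F' ⊆ F →
            G_Nice (C.filter (fun q => (if q ∈ C₁ then ψ₁ q else ψ₂ q) ∈ F')) := by
          intro F' hF' hsub
          convert hn1 F' ⟨hF', hsub⟩ using 1
          ext q
          rw [Finset.mem_filter, Finset.mem_filter]
          constructor
          · rintro ⟨hq, hqF⟩
            by_cases h1 : q ∈ C₁
            · rw [if_pos h1] at hqF; exact ⟨h1, hqF⟩
            · rw [if_neg h1] at hqF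
              exact absurd (hsub hqF) (v2 q (((hmem q).1 hq).resolve_left h1)).2
          · rintro ⟨hq, hqF⟩
            rw [if_pos hq]
            exact ⟨(hmem q).2 (Or.inl hq), hqF⟩
        have hsub2 : ∀ F' ∈ L, F' ⊆ S \ F →
            G_Nice (C.filter (fun q => (if q ∈ C₁ then ψ₁ q else ψ₂ q) ∈ F')) := by
          intro F' hF' hsub
          convert hn2 F' ⟨hF', hsub⟩ using 1
          ext q
          rw [Finset.mem_filter, Finset.mem_filter]
          constructor
          · rintro ⟨hq, hqF⟩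
            by_cases h1 : q ∈ C₁
            · rw [if_pos h1] at hqF
              exact absurd (v1 q h1) (Finset.mem_sdiff.1 (hsub hqF)).2
            · rw [if_neg h1] at hqF; exact ⟨((hmem q).1 hq).resolve_left h1, hqF⟩
          · rintro ⟨hq, hqF⟩
            rw [if_neg (fun h1 => hdis q h1 hq)]
            exact ⟨(hmem q).2 (Or.inr hq), hqF⟩
        intro F' hF'
        show G_Nice (C.filter (fun q => (if q ∈ C₁ then ψ₁ q else ψ₂ q) ∈ F'))
        rcases hlam F hFL F' hF' with h | h | h
        · by_cases hF'S : F' = S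
          · convert hC using 1
            apply Finset.filter_true_of_mem
            intro q hq
            rw [hF'S]
            by_cases h1 : q ∈ C₁
            · rw [if_pos h1]; exact hFS (v1 q h1)
            · rw [if_neg h1]; exact (v2 q (((hmem q).1 hq).resolve_left h1)).1
          · have h1 := hmax F' (by
              rw [Finset.mem_filter, Finset.mem_powerset]
              exact ⟨hL F' hF', hF', hFn.mono h, hF'S⟩)
            have h2 := Finset.eq_of_subset_of_card_le h h1
            exact hsub F' hF' (by rw [h2])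
        · exact hsub F' hF' h
        · apply hsub2 F' hF'
          intro s hs
          exact Finset.mem_sdiff.2 ⟨hL F' hF' hs, fun hsF => Finset.disjoint_left.1 h hsF hs⟩
    · push Not at h
      obtain ⟨ψ, hψ⟩ := (C.finite_toSet).exists_bijOn_of_encard_eq
        (t := (S : Set α)) (by rw [Set.encard_coe_eq_coe_finsetCard,
          Set.encard_coe_eq_coe_finsetCard, hCn, hS])
      refine ⟨ψ, hψ, ?_⟩
      intro F hF
      by_cases hFn : F.Nonempty
      · have h1 := h F hF hFn
        subst h1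
        convert hC using 1
        apply Finset.filter_true_of_mem
        intro q hq
        exact Finset.mem_coe.1 (hψ.mapsTo (Finset.mem_coe.2 hq))
      · rw [Finset.not_nonempty_iff_eq_empty] at hFn
        subst hFn
        simp only [Finset.notMem_empty, Finset.filter_false]
        exact G_nice_empty

/-- The position with number `p`. -/
def G_pos (k r : ℕ) (p : ℕ) : ZMod k × ℕ := (((p / r : ℕ) : ZMod k), p % r)

omit [NeZero k] in
lemma G_pos_per {r : ℕ} (hr : 0 < r) (p : ℕ) : G_pos k r (p + k * r) = G_pos k r p := by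
  unfold G_pos
  rw [Nat.add_mul_div_right _ _ hr, Nat.add_mul_mod_self_right, Nat.cast_add, ZMod.natCast_self,
    add_zero]

lemma G_pos_bij {r : ℕ} (hr : 0 < r) : Set.BijOn (G_pos k r) (Set.Iio (k * r))
    ↑((Finset.univ : Finset (ZMod k)) ×ˢ Finset.range r) := by
  refine ⟨?_, ?_, ?_⟩
  · intro p _
    simp only [G_pos, Finset.coe_product, Finset.coe_univ, Set.mem_prod, Set.mem_univ,
      Finset.coe_range, Set.mem_Iio, true_and]
    exact Nat.mod_lt _ hr
  · intro p hp p' hp' he
    have hp1 : p < k * r := hp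
    have hp2 : p' < k * r := hp'
    have h1 : ((p / r : ℕ) : ZMod k) = ((p' / r : ℕ) : ZMod k) := (Prod.ext_iff.1 he).1
    have h2 : p % r = p' % r := (Prod.ext_iff.1 he).2
    have h3 := G_cast_inj (Nat.div_lt_of_lt_mul (by rw [Nat.mul_comm]; exact hp1))
      (Nat.div_lt_of_lt_mul (by rw [Nat.mul_comm]; exact hp2)) h1
    rw [← Nat.div_add_mod p r, ← Nat.div_add_mod p' r, h2, h3]
  · rintro ⟨a, c⟩ hq
    simp only [Finset.coe_product, Finset.coe_univ, Set.mem_prod, Set.mem_univ,
      Finset.coe_range, Set.mem_Iio, true_and] at hq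
    refine ⟨a.val * r + c, ?_, ?_⟩
    · show a.val * r + c < k * r
      have h1 : a.val + 1 ≤ k := ZMod.val_lt a
      have h2 := Nat.mul_le_mul_right r h1
      rw [Nat.add_mul] at h2
      omega
    · unfold G_pos
      rw [Nat.mul_comm, Nat.mul_add_div hr, Nat.div_eq_of_lt hq, Nat.mul_add_mod,
        Nat.mod_eq_of_lt hq, Nat.add_zero, ZMod.natCast_zmod_val]

omit [NeZero k] in
lemma G_window {r : ℕ} (hr : 0 < r) (p : ℕ) :
    (Finset.Ico p (p + r)).image (G_pos k r) = (Finset.range r).image
      (fun c => ((if p % r ≤ c then ((p / r : ℕ) : ZMod k) else ((p / r : ℕ) : ZMod k) + 1), c)) := by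
  classical
  have hb := Nat.mod_lt p hr
  have hp := Nat.div_add_mod p r
  have hpos : ∀ c < r, G_pos k r (if p % r ≤ c then p + (c - p % r) else p + (c + r - p % r)) =
      ((if p % r ≤ c then ((p / r : ℕ) : ZMod k) else ((p / r : ℕ) : ZMod k) + 1), c) := by
    intro c hc
    split_ifs with h
    · have e : p + (c - p % r) = r * (p / r) + c := by omega
      unfold G_pos
      rw [e, Nat.mul_add_div hr, Nat.div_eq_of_lt hc, Nat.mul_add_mod, Nat.mod_eq_of_lt hc,
        Nat.add_zero]
    · have e : p + (c + r - p % r) = r * (p / r + 1) + c := by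
        rw [Nat.mul_add]; omega
      unfold G_pos
      rw [e, Nat.mul_add_div hr, Nat.div_eq_of_lt hc, Nat.mul_add_mod, Nat.mod_eq_of_lt hc,
        Nat.add_zero, Nat.cast_add, Nat.cast_one]
  apply Finset.Subset.antisymm
  · intro q hq
    rw [Finset.mem_image] at hq ⊢
    obtain ⟨y, hy, rfl⟩ := hq
    rw [Finset.mem_Ico] at hy
    obtain ⟨j, rfl⟩ := Nat.exists_eq_add_of_le hy.1
    by_cases h : p % r + j < r
    · refine ⟨p % r + j, Finset.mem_range.2 h, ?_⟩
      rw [← hpos _ h, if_pos (by omega)]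
      congr 1; omega
    · refine ⟨p % r + j - r, Finset.mem_range.2 (by omega), ?_⟩
      rw [← hpos _ (by omega), if_neg (by omega)]
      congr 1; omega
  · intro q hq
    rw [Finset.mem_image] at hq ⊢
    obtain ⟨c, hc, rfl⟩ := hq
    rw [Finset.mem_range] at hc
    refine ⟨_, ?_, hpos c hc⟩
    rw [Finset.mem_Ico]
    split_ifs with h <;> omega

end G

/-- BLOCK G. -/
theorem laminar_cyclic {α : Type*} [DecidableEq α] {k r : ℕ} (hk : 0 < k) (hr : 0 < r)
    (S : Finset α) (hS : S.card = k * r) (L : Set (Finset α)) (hL : ∀ F ∈ L, F ⊆ S)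
    (hlam : Laminar L) :
    ∃ σ : ℕ → α, (∀ i, σ (i + k * r) = σ i) ∧ Set.BijOn σ (Set.Iio (k * r)) ↑S ∧
      ∀ F ∈ L, ∀ p, Bal k ((Finset.Ico p (p + r)).image σ) F := by
  classical
  have : NeZero k := ⟨hk.ne'⟩
  obtain ⟨s₀, hs₀⟩ : S.Nonempty := Finset.card_pos.1 (by rw [hS]; exact Nat.mul_pos hk hr)
  have : Nonempty α := ⟨s₀⟩
  set C : Finset (ZMod k × ℕ) := Finset.univ ×ˢ Finset.range r with hCdef
  have hCcard : C.card = k * r := by
    rw [hCdef, Finset.card_product, Finset.card_univ, ZMod.card, Finset.card_range]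
  have hCnice : G_Nice C := by
    refine ⟨Finset.range r, 0, 0, fun _ => 0, hk, by simp,
      fun i j _ hj => absurd hj (by omega), ?_⟩
    ext q
    rw [G_mem_Cell, hCdef]
    simp
  obtain ⟨ψ, hψ, hnice⟩ := G_arrange (k := k) (k * r) S C hS hCnice hCcard L hL hlam
  refine ⟨fun p => ψ (G_pos k r p), ?_, ?_, ?_⟩
  · intro i
    show ψ (G_pos k r (i + k * r)) = ψ (G_pos k r i)
    rw [G_pos_per hr]
  · exact hψ.comp (G_pos_bij hr)
  · intro F hF p
    have h1 : (Finset.Ico p (p + r)).image (fun p => ψ (G_pos k r p)) =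
        (Finset.range r).image (fun c => ψ ((if p % r ≤ c then ((p / r : ℕ) : ZMod k)
          else ((p / r : ℕ) : ZMod k) + 1), c)) := by
      rw [show (fun p => ψ (G_pos k r p)) = ψ ∘ (G_pos k r) from rfl, ← Finset.image_image,
        G_window hr, Finset.image_image]
      rfl
    have h2 : ((Finset.Ico p (p + r)).image (fun p => ψ (G_pos k r p)) ∩ F).card =
        ((Finset.range r).filter (fun c => ((if p % r ≤ c then ((p / r : ℕ) : ZMod k)
          else ((p / r : ℕ) : ZMod k) + 1), c) ∈ C.filter (fun q => ψ q ∈ F))).card := by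
      rw [h1]
      have h3 : (Finset.range r).image (fun c => ψ ((if p % r ≤ c then ((p / r : ℕ) : ZMod k)
          else ((p / r : ℕ) : ZMod k) + 1), c)) ∩ F =
          ((Finset.range r).filter (fun c => ((if p % r ≤ c then ((p / r : ℕ) : ZMod k)
          else ((p / r : ℕ) : ZMod k) + 1), c) ∈ C.filter (fun q => ψ q ∈ F))).image
            (fun c => ψ ((if p % r ≤ c then ((p / r : ℕ) : ZMod k)
              else ((p / r : ℕ) : ZMod k) + 1), c)) := by
        ext s
        simp only [Finset.mem_inter, Finset.mem_image, Finset.mem_filter, Finset.mem_range,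
          hCdef, Finset.mem_product, Finset.mem_univ, true_and]
        constructor
        · rintro ⟨⟨c, hc, rfl⟩, hs⟩
          exact ⟨c, ⟨hc, hc, hs⟩, rfl⟩
        · rintro ⟨c, ⟨hc, -, hs⟩, rfl⟩
          exact ⟨⟨c, hc, rfl⟩, hs⟩
      rw [h3, Finset.card_image_of_injOn]
      intro c hc c' hc' he
      have hc1 := (Finset.mem_filter.1 (Finset.mem_coe.1 hc)).2
      have hc2 := (Finset.mem_filter.1 (Finset.mem_coe.1 hc')).2
      have h4 := hψ.injOn (Finset.mem_coe.2 (Finset.mem_filter.1 hc1).1)
        (Finset.mem_coe.2 (Finset.mem_filter.1 hc2).1) he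
      exact (Prod.ext_iff.1 h4).2
    have h5 : F.card = (C.filter (fun q => ψ q ∈ F)).card := by
      have h6 : (C.filter (fun q => ψ q ∈ F)).image ψ = F := by
        ext s
        rw [Finset.mem_image]
        constructor
        · rintro ⟨q, hq, rfl⟩
          exact (Finset.mem_filter.1 hq).2
        · intro hs
          obtain ⟨q, hq, hqs⟩ := hψ.surjOn (Finset.mem_coe.2 (hL F hF hs))
          exact ⟨q, Finset.mem_filter.2 ⟨Finset.mem_coe.1 hq, by rw [hqs]; exact hs⟩, hqs⟩
      conv_lhs => rw [← h6]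
      rw [Finset.card_image_of_injOn]
      intro q hq q' hq' he
      exact hψ.injOn (Finset.mem_coe.2 (Finset.mem_filter.1 (Finset.mem_coe.1 hq)).1)
        (Finset.mem_coe.2 (Finset.mem_filter.1 (Finset.mem_coe.1 hq')).1) he
    have h7 := G_count (r := r) (hnice F hF) (fun q hq => by
      have := (Finset.mem_filter.1 hq).1
      rw [hCdef, Finset.mem_product] at this
      exact Finset.mem_range.1 this.2) ((p / r : ℕ) : ZMod k) (p % r)
    unfold Bal
    rw [h2, h5]
    exact h7

end Helper20.CY
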